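import Pool.Agent.H34.PT.Tree

/-!
# Long paths in the tree of two subgroups
-/

set_option autoImplicit false

namespace Pool.Agent.H34.PT

open Pool.Agent.Helper270.Tree

variable {G : Type} [Group G] {A E : Subgroup G}

theorem adj_inl {g : G} {v : Vt A E} (h : (cg A E).Adj (Sum.inl (g : G ⧸ A)) v) :
    ∃ a ∈ A, v = Sum.inr ((g * a : G) : G ⧸ E) := by
  obtain ⟨k, ⟨h1, h2⟩ | ⟨h1, _⟩⟩ := h
  · have h3 : (g : G ⧸ A) = k := Sum.inl.inj h1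
    rw [QuotientGroup.eq] at h3
    exact ⟨_, h3, by rw [mul_inv_cancel_left]; exact h2⟩
  · exact absurd h1 (by simp)

theorem adj_inr {g : G} {v : Vt A E} (h : (cg A E).Adj (Sum.inr (g : G ⧸ E)) v) :
    ∃ e ∈ E, v = Sum.inl ((g * e : G) : G ⧸ A) := by
  obtain ⟨k, ⟨h1, _⟩ | ⟨h1, h2⟩⟩ := h
  · exact absurd h1 (by simp)
  · have h3 : (g : G ⧸ E) = k := Sum.inr.inj h1
    rw [QuotientGroup.eq] at h3
    exact ⟨_, h3, by rw [mul_inv_cancel_left]; exact h2⟩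

theorem inl_mul {g a : G} (ha : a ∈ A) :
    (Sum.inl ((g * a : G) : G ⧸ A) : Vt A E) = Sum.inl (g : G ⧸ A) := by
  congr 1
  rw [eq_comm, QuotientGroup.eq, inv_mul_cancel_left]
  exact ha

theorem inr_mul {g e : G} (he : e ∈ E) :
    (Sum.inr ((g * e : G) : G ⧸ E) : Vt A E) = Sum.inr (g : G ⧸ E) := by
  congr 1
  rw [eq_comm, QuotientGroup.eq, inv_mul_cancel_left]
  exact he

/-- a path of length six between cosets of `E` -/
theorem seven {p : ℕ → Vt A E} (hadj : ∀ i < 6, (cg A E).Adj (p i) (p (i + 1)))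
    (hnb : ∀ i, i + 2 ≤ 6 → p i ≠ p (i + 2)) {x : G ⧸ E} (h0 : p 0 = Sum.inr x) :
    ∃ k a e a0 e' a3 : G, (a ∈ A ∧ a ∉ E) ∧ (e ∈ E ∧ e ∉ A) ∧ (a0 ∈ A ∧ a0 ∉ E) ∧
      (e' ∈ E ∧ e' ∉ A) ∧ (a3 ∈ A ∧ a3 ∉ E) ∧
      p 0 = Sum.inr ((k * e * a0 : G) : G ⧸ E) ∧ p 2 = Sum.inr (k : G ⧸ E) ∧
      p 4 = Sum.inr ((k * a : G) : G ⧸ E) ∧ p 6 = Sum.inr ((k * a * e' * a3 : G) : G ⧸ E) := by
  obtain ⟨g0, rfl⟩ := QuotientGroup.mk_surjective x
  have A0 := hadj 0 (by norm_num)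
  rw [h0] at A0
  obtain ⟨e1, he1, h1⟩ := adj_inr A0
  have A1 := hadj 1 (by norm_num)
  rw [show (0 : ℕ) + 1 = 1 from rfl] at h1
  rw [h1] at A1
  obtain ⟨a1, ha1, h2⟩ := adj_inl A1
  have A2 := hadj 2 (by norm_num)
  rw [show (1 : ℕ) + 1 = 2 from rfl] at h2
  rw [h2] at A2
  obtain ⟨e2, he2, h3⟩ := adj_inr A2
  have A3 := hadj 3 (by norm_num)
  rw [show (2 : ℕ) + 1 = 3 from rfl] at h3
  rw [h3] at A3
  obtain ⟨a2, ha2, h4⟩ := adj_inl A3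
  have A4 := hadj 4 (by norm_num)
  rw [show (3 : ℕ) + 1 = 4 from rfl] at h4
  rw [h4] at A4
  obtain ⟨e3, he3, h5⟩ := adj_inr A4
  have A5 := hadj 5 (by norm_num)
  rw [show (4 : ℕ) + 1 = 5 from rfl] at h5
  rw [h5] at A5
  obtain ⟨a3, ha3, h6⟩ := adj_inl A5
  rw [show (5 : ℕ) + 1 = 6 from rfl] at h6
  have n0 := hnb 0 (by norm_num)
  have n1 := hnb 1 (by norm_num)
  have n2 := hnb 2 (by norm_num)
  have n3 := hnb 3 (by norm_num)
  have n4 := hnb 4 (by norm_num)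
  rw [show (0 : ℕ) + 2 = 2 from rfl, h0, h2] at n0
  rw [show (1 : ℕ) + 2 = 3 from rfl, h1, h3] at n1
  rw [show (2 : ℕ) + 2 = 4 from rfl, h2, h4] at n2
  rw [show (3 : ℕ) + 2 = 5 from rfl, h3, h5] at n3
  rw [show (4 : ℕ) + 2 = 6 from rfl, h4, h6] at n4
  obtain ⟨k, hk⟩ : ∃ k, k = g0 * e1 * a1 * e2 := ⟨_, rfl⟩
  have hx0 : g0 * e1 = k * e2⁻¹ * a1⁻¹ := by rw [hk]; group
  have a1E : a1 ∉ E := by
    intro h
    apply n0
    rw [inr_mul h, inr_mul he1]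
  have e2A : e2 ∉ A := by
    intro h
    apply n1
    rw [inl_mul h, inl_mul ha1]
  have a2E : a2 ∉ E := by
    intro h
    apply n2
    rw [inr_mul h, inr_mul he2]
  have e3A : e3 ∉ A := by
    intro h
    apply n3
    rw [inl_mul h, inl_mul ha2]
  have a3E : a3 ∉ E := by
    intro h
    apply n4
    rw [inr_mul h, inr_mul he3]
  refine ⟨k, a2, e2⁻¹, a1⁻¹, e3, a3, ⟨ha2, a2E⟩, ⟨E.inv_mem he2, fun h => e2A ?_⟩,
    ⟨A.inv_mem ha1, fun h => a1E ?_⟩, ⟨he3, e3A⟩, ⟨ha3, a3E⟩, ?_, ?_, ?_, ?_⟩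
  · exact (inv_mem_iff (H := A)).1 h
  · exact (inv_mem_iff (H := E)).1 h
  · rw [h0, ← hx0, inr_mul he1]
  · rw [h2, hk, inr_mul he2]
  · rw [h4, hk]
  · rw [h6, hk]

variable {n m : G → ℕ}

theorem fix_inr {u g : G} (h : u • (Sum.inr (g : G ⧸ E) : Vt A E) = Sum.inr (g : G ⧸ E)) :
    g⁻¹ * u * g ∈ E := by
  rw [smul_inr] at h
  have h1 := Sum.inr.inj h
  rw [eq_comm, QuotientGroup.eq] at h1
  rwa [mul_assoc]

/-- two vertices at distance at least seven -/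
theorem Deg.chain (h : Deg A E n m) {v w : Vt A E} (hd : 7 ≤ (cg A E).dist v w) :
    ∃ k a e a0 e' a3 : G, (a ∈ A ∧ a ∉ E) ∧ (e ∈ E ∧ e ∉ A) ∧ (a0 ∈ A ∧ a0 ∉ E) ∧
      (e' ∈ E ∧ e' ∉ A) ∧ (a3 ∈ A ∧ a3 ∉ E) ∧ ∀ u : G, u • v = v → u • w = w →
      (k * e * a0)⁻¹ * u * (k * e * a0) ∈ E ∧ k⁻¹ * u * k ∈ E ∧ (k * a)⁻¹ * u * (k * a) ∈ E ∧
        (k * a * e' * a3)⁻¹ * u * (k * a * e' * a3) ∈ E := by
  have hT := h.treeAct
  obtain ⟨q, hq0, hqd, hadj, hdist, hnb⟩ := exists_geod hT.isTree v w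
  have hfix : ∀ u : G, u • v = v → u • w = w → ∀ i ≤ (cg A E).dist v w, u • q i = q i := by
    intro u hv hw i hi
    obtain ⟨h1, h2⟩ := hdist i hi
    have h3 : (cg A E).dist v (u • q i) = (cg A E).dist v (q i) := by
      conv_lhs => rw [← hv]
      exact hT.dist_smul u v (q i)
    have h4 : (cg A E).dist (u • q i) w = (cg A E).dist (q i) w := by
      conv_lhs => rw [← hw]
      exact hT.dist_smul u (q i) w
    exact geod_unique (x := v) (y := w) (z := u • q i) (z' := q i) hT.isTree (by omega) (by omega) h3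
  obtain ⟨c, hc, x, hx⟩ : ∃ c ≤ 1, ∃ x : G ⧸ E, q c = Sum.inr x := by
    rcases hq : q 0 with x | x
    · obtain ⟨g, rfl⟩ := QuotientGroup.mk_surjective x
      have h1 := hadj 0 (by omega)
      rw [hq] at h1
      obtain ⟨a, _, h2⟩ := adj_inl h1
      exact ⟨1, le_rfl, _, h2⟩
    · exact ⟨0, Nat.zero_le _, x, hq⟩
  obtain ⟨k, a, e, a0, e', a3, h1, h2, h3, h4, h5, p0, p2, p4, p6⟩ :=
    seven (p := fun i => q (c + i)) (fun i hi => hadj (c + i) (by omega))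
      (fun i hi => hnb (c + i) (by omega)) (x := x) hx
  refine ⟨k, a, e, a0, e', a3, h1, h2, h3, h4, h5, fun u hv hw => ⟨?_, ?_, ?_, ?_⟩⟩
  · refine fix_inr (A := A) ?_
    rw [← p0]
    exact hfix u hv hw _ (by omega)
  · refine fix_inr (A := A) ?_
    rw [← p2]
    exact hfix u hv hw _ (by omega)
  · refine fix_inr (A := A) ?_
    rw [← p4]
    exact hfix u hv hw _ (by omega)
  · refine fix_inr (A := A) ?_
    rw [← p6]
    exact hfix u hv hw _ (by omega)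

end Pool.Agent.H34.PT
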