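import Pool.Agent.H34.PT.Main
import Pool.Graph.R_pool_sql_team_seeded_2aa45f1a.Q91.VR.Class
import Pool.Graph.R_pool_sql_team_seeded_3997aac3.Q30.FJ.Crit

/-!
# Finitely generated groups of polynomial automorphisms of the plane

They act acylindrically on the tree: the stabilizers of long paths are finite of bounded order.
-/

set_option autoImplicit false

namespace Pool.Agent.H34.PT

open MvPolynomial Pool.Agent.K7.H10.PA
open Pool.Agent.Y110.FJ (ClosedE)
open Pool.Agent.TH107.LB (RP)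
open Pool.Agent.Q91.VR (Covered)
open Matrix

/-- The class `C` contains the finitely generated groups `G` which act acylindrically and without
inversions on a tree with vertex stabilizers in `C`; acylindrically means that for some `k` and `n`
the stabilizers of the pairs of vertices at distance at least `k` have at most `n` elements. -/
def AcylClosed (C : ∀ (G : Type) [Group G], Prop) : Prop :=
  ∀ (G V : Type) [Group G] [MulAction G V] (T : SimpleGraph V) (k n : ℕ), Group.FG G → T.IsTree →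
    (∀ (g : G) (v w : V), T.Adj v w → T.Adj (g • v) (g • w)) →
    (∀ (g : G) (v w : V), T.Adj v w → ¬ (g • v = w ∧ g • w = v)) →
    (∀ v w : V, k ≤ T.dist v w → {g : G | g • v = v ∧ g • w = w}.encard ≤ n) →
    (∀ v : V, C (MulAction.stabilizer G v)) → C G

theorem ppow_of_RP {H : Type} [Group H] {p : ℕ} (hp : p.Prime) (h : RP p H) :
    ∃ N : Subgroup H, N.FiniteIndex ∧ ∀ g ∈ N, IsOfFinOrder g → ∃ a : ℕ, g ^ p ^ a = 1 := by
  obtain ⟨N, _, hN, hs⟩ := h
  refine ⟨N, hN, fun g hg hfin => ?_⟩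
  obtain ⟨a, m, hm, hn⟩ := Nat.exists_eq_pow_mul_and_not_dvd hfin.orderOf_pos.ne' p hp.ne_one
  refine ⟨a, ?_⟩
  by_contra hne
  obtain ⟨K, _, _, ⟨e, he⟩, hK⟩ := hs _ hne
  apply hK
  have h1 : (g ^ p ^ a) ^ p ^ e ∈ K := he _ (N.pow_mem hg _)
  have h2 : (g ^ p ^ a) ^ m = 1 := by rw [← pow_mul, ← hn, pow_orderOf_eq_one]
  have h3 : IsCoprime ((p ^ e : ℕ) : ℤ) (m : ℤ) :=
    Nat.isCoprime_iff_coprime.2 (Nat.Coprime.pow_left _ ((Nat.Prime.coprime_iff_not_dvd hp).2 hm))
  obtain ⟨x, y, hxy⟩ := h3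
  have h4 : ((g ^ p ^ a) ^ p ^ e) ^ x = g ^ p ^ a := by
    have h5 : (g ^ p ^ a) ^ (x * ((p ^ e : ℕ) : ℤ) + y * (m : ℤ)) = g ^ p ^ a := by
      rw [hxy, zpow_one]
    rw [_root_.zpow_add, mul_comm y, _root_.zpow_mul _ (m : ℤ), zpow_natCast _ m, h2, _root_.one_zpow,
      mul_one, mul_comm x, _root_.zpow_mul, zpow_natCast] at h5
    exact h5
  rw [← h4]
  exact K.zpow_mem h1 x

theorem torsion_free_index {H : Type} [Group H] {p q : ℕ} (hp : p.Prime) (hq : q.Prime)
    (hpq : p ≠ q) (h : RP p H) (h' : RP q H) :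
    ∃ M : Subgroup H, M.FiniteIndex ∧ ∀ g ∈ M, IsOfFinOrder g → g = 1 := by
  obtain ⟨N, hN, h1⟩ := ppow_of_RP hp h
  obtain ⟨N', hN', h2⟩ := ppow_of_RP hq h'
  refine ⟨N ⊓ N', inferInstance, fun g hg hfin => ?_⟩
  obtain ⟨a, ha⟩ := h1 g hg.1 hfin
  obtain ⟨b, hb⟩ := h2 g hg.2 hfin
  have h3 : Nat.Coprime (p ^ a) (q ^ b) :=
    Nat.Coprime.pow _ _ ((Nat.coprime_primes hp hq).2 hpq)
  have h4 := orderOf_dvd_of_pow_eq_one ha
  have h5 := orderOf_dvd_of_pow_eq_one hb
  have h6 := Nat.dvd_gcd h4 h5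
  rw [h3] at h6
  exact orderOf_eq_one_iff.1 (Nat.dvd_one.1 h6)

variable {K : Type} [Field K] [CharZero K] {C : ∀ (G : Type) [Group G], Prop}

theorem tame_covered : Covered (Tame K) :=
  Or.inr (Or.inl ⟨K, MvPolynomial (Fin 2) K, inferInstance, inferInstance, inferInstance,
    inferInstance, inferInstance, (Tame K).subtype, (Tame K).subtype_injective⟩)

theorem tame_tf (H : Subgroup (Tame K)) (hH : H.FG) :
    ∃ M : Subgroup H, M.FiniteIndex ∧ ∀ g ∈ M, IsOfFinOrder g → g = 1 := by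
  have h := tame_covered.local H hH
  obtain ⟨p, hp, h1⟩ := h.nonempty
  obtain ⟨q, ⟨hq, h2⟩, hne⟩ := (h.sdiff (Set.finite_singleton p)).nonempty
  exact torsion_free_index hp hq (fun h => hne h.symm) h1 h2

theorem bounded_stab (H : Subgroup (Tame K)) (hH : H.FG) : ∃ n : ℕ,
    ∀ v w : Vt (AT K) (ET K), 7 ≤ (cg (AT K) (ET K)).dist v w →
      {g : H | g • v = v ∧ g • w = w}.encard ≤ n := by
  obtain ⟨M, hM, htf⟩ := tame_tf H hH
  have hfin : Finite (H ⧸ M) := inferInstance
  refine ⟨Nat.card (H ⧸ M), fun v w hd => ?_⟩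
  have h1 : {g : H | g • v = v ∧ g • w = w}.Finite := by
    refine ((finite_stab v w hd).preimage (f := (Subtype.val : H → Tame K))
      Subtype.val_injective.injOn).subset ?_
    rintro g ⟨h1, h2⟩
    exact ⟨h1, h2⟩
  have h2 : Set.InjOn (fun g : H => (g : H ⧸ M)) {g : H | g • v = v ∧ g • w = w} := by
    rintro g ⟨hg1, hg2⟩ g' ⟨hg1', hg2'⟩ hgg
    have h3 : g⁻¹ * g' ∈ M := QuotientGroup.eq.1 hgg
    have h4 : (g⁻¹ * g') • v = v ∧ (g⁻¹ * g') • w = w :=
      ⟨(MulAction.stabilizer H v).mul_mem (inv_mem hg1) hg1',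
        (MulAction.stabilizer H w).mul_mem (inv_mem hg2) hg2'⟩
    have h5 : IsOfFinOrder (g⁻¹ * g') := by
      rw [isOfFinOrder_iff_pow_eq_one]
      by_contra hcon
      push Not at hcon
      have h6 : Function.Injective (fun n : ℕ => (g⁻¹ * g') ^ n) := by
        rw [injective_pow_iff_not_isOfFinOrder, isOfFinOrder_iff_pow_eq_one]
        push Not
        exact hcon
      refine Set.infinite_range_of_injective h6 (h1.subset ?_)
      rintro _ ⟨n, rfl⟩
      have h7 : ∀ x : Vt (AT K) (ET K), (g⁻¹ * g') • x = x → (g⁻¹ * g') ^ n • x = x := by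
        intro x hx
        exact (MulAction.stabilizer H x).pow_mem hx n
      exact ⟨h7 v h4.1, h7 w h4.2⟩
    exact inv_mul_eq_one.1 (htf _ h3 h5)
  rw [← h2.encard_image]
  refine (Set.encard_le_encard (Set.subset_univ _)).trans ?_
  rw [Set.encard_univ, ENat.card_eq_coe_natCard]

/-- the group of the tame automorphisms of the plane is in the class if `GL₂` is -/
theorem tame_mem' (hC : ClosedE C) (hA : AcylClosed C)
    (hsol : ∀ (G : Type) [Group G], Group.IsSolvable G → C G)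
    (hK : C (GL (Fin 2) K)) : C (Tame K) := by
  refine Q30.FJ.of_fg hC.base (Tame K) fun s => ?_
  have hFG : (Subgroup.closure (s : Set (Tame K))).FG := ⟨s, rfl⟩
  obtain ⟨H, hH⟩ : ∃ H, H = Subgroup.closure (s : Set (Tame K)) := ⟨_, rfl⟩
  rw [← hH] at hFG ⊢
  obtain ⟨n, hn⟩ := bounded_stab H hFG
  have hT := (deg K).treeAct
  have hAff := aff_mem hC hsol hK
  have hE : C (Tri K) := hsol _ tri_solvable
  refine hA H (Vt (AT K) (ET K)) (cg (AT K) (ET K)) 7 n
    ((Group.fg_iff_subgroup_fg H).2 hFG) hT.isTree (fun g => hT.adj (g : Tame K))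
    (fun g => hT.noInv (g : Tame K)) hn ?_
  intro v
  have h1 : C (MulAction.stabilizer (Tame K) v) := by
    rcases v with x | x
    · obtain ⟨g, rfl⟩ := QuotientGroup.mk_surjective x
      exact stab_inl hAff hC
    · obtain ⟨g, rfl⟩ := QuotientGroup.mk_surjective x
      exact stab_inr hE hC
  refine hC.base.of_injective _ _ (MonoidHom.mk' (fun u : MulAction.stabilizer H v =>
    (⟨(u.1 : Tame K), u.2⟩ : MulAction.stabilizer (Tame K) v)) (fun _ _ => rfl)) ?_ h1
  intro a b hab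
  have h2 := congrArg Subtype.val hab
  exact Subtype.ext (Subtype.ext h2)

end Pool.Agent.H34.PT
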