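import Pool.Agent.H34.PT.Stab
import Pool.Agent.H34.PT.Acyl

/-!
# Automorphisms which fix a long path of the tree
-/

set_option autoImplicit false

namespace Pool.Agent.H34.PT

open MvPolynomial Pool.Agent.K7.H10.PA

variable {K : Type} [Field K]

/-! ### polynomials in one variable -/

theorem period {Q : Polynomial K} [CharZero K] (hQ : 2 ≤ Q.natDegree) {η c : K}
    (h : Q.comp (Polynomial.X + Polynomial.C η) = Q + Polynomial.C c) : η = 0 := by
  by_contra hη
  have h1 : ∀ n : ℕ, Q.eval (n * η) = n * c + Q.eval 0 := by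
    intro n
    induction n with
    | zero => simp
    | succ n ih =>
      have h2 := congrArg (Polynomial.eval ((n : K) * η)) h
      rw [Polynomial.eval_comp, Polynomial.eval_add, Polynomial.eval_add, Polynomial.eval_X,
        Polynomial.eval_C, Polynomial.eval_C, ih] at h2
      rw [show ((n + 1 : ℕ) : K) * η = n * η + η by push_cast; ring, h2]
      push_cast
      ring
  obtain ⟨P, hP⟩ : ∃ P : Polynomial K, P = Q.comp (Polynomial.C η * Polynomial.X) -
    (Polynomial.C c * Polynomial.X + Polynomial.C (Q.eval 0)) := ⟨_, rfl⟩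
  have h2 : P = 0 := by
    refine Polynomial.eq_zero_of_infinite_isRoot P ?_
    refine (Set.infinite_range_of_injective (f := fun n : ℕ => (n : K)) Nat.cast_injective).mono ?_
    rintro _ ⟨n, rfl⟩
    show P.eval (n : K) = 0
    rw [hP, Polynomial.eval_sub, Polynomial.eval_comp, Polynomial.eval_add, Polynomial.eval_mul,
      Polynomial.eval_mul, Polynomial.eval_C, Polynomial.eval_C, Polynomial.eval_C,
      Polynomial.eval_X, mul_comm η, h1]
    ring
  have h3 : Q.comp (Polynomial.C η * Polynomial.X) =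
      Polynomial.C c * Polynomial.X + Polynomial.C (Q.eval 0) := by
    rw [hP] at h2
    exact sub_eq_zero.1 h2
  have h4 := congrArg Polynomial.natDegree h3
  rw [Polynomial.natDegree_comp, Polynomial.natDegree_C_mul_X η hη, mul_one] at h4
  have h5 : (Polynomial.C c * Polynomial.X + Polynomial.C (Q.eval 0)).natDegree ≤ 1 :=
    Polynomial.natDegree_linear_le
  omega

theorem lead {Q : Polynomial K} (hQ : 1 ≤ Q.natDegree) {δ ε δ' c : K} (hδ : δ ≠ 0)
    (h : Q.comp (Polynomial.C δ * Polynomial.X + Polynomial.C ε) =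
      Polynomial.C δ' * Q + Polynomial.C c) : δ ^ Q.natDegree = δ' := by
  have h0 : Q.leadingCoeff ≠ 0 := by
    rw [Polynomial.leadingCoeff_ne_zero]
    rintro rfl
    rw [Polynomial.natDegree_zero] at hQ
    omega
  have h1 : (Polynomial.C δ * Polynomial.X + Polynomial.C ε).natDegree = 1 :=
    Polynomial.natDegree_linear hδ
  have h2 := congrArg (fun P => Polynomial.coeff P Q.natDegree) h
  have h3 := Polynomial.coeff_comp_degree_mul_degree (p := Q)
    (q := Polynomial.C δ * Polynomial.X + Polynomial.C ε) (by rw [h1]; norm_num)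
  rw [h1, mul_one] at h3
  simp only [h3, Polynomial.coeff_add, Polynomial.coeff_C_mul] at h2
  rw [Polynomial.coeff_C_of_ne_zero (by omega), add_zero, Polynomial.coeff_natDegree,
    Polynomial.leadingCoeff_linear hδ] at h2
  have h4 : Q.leadingCoeff * (δ ^ Q.natDegree - δ') = 0 := by
    rw [mul_sub, h2]
    ring
  rcases mul_eq_zero.1 h4 with h5 | h5
  · exact absurd h5 h0
  · exact sub_eq_zero.1 h5

theorem unique [CharZero K] {Q : Polynomial K} (hQ : 2 ≤ Q.natDegree) {δ ε ε' δ' c c' : K}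
    (hδ : δ ≠ 0)
    (h : Q.comp (Polynomial.C δ * Polynomial.X + Polynomial.C ε) =
      Polynomial.C δ' * Q + Polynomial.C c)
    (h' : Q.comp (Polynomial.C δ * Polynomial.X + Polynomial.C ε') =
      Polynomial.C δ' * Q + Polynomial.C c') : ε = ε' := by
  obtain ⟨L, hL⟩ : ∃ L : Polynomial K, L = Polynomial.C δ⁻¹ * (Polynomial.X - Polynomial.C ε') :=
    ⟨_, rfl⟩
  have h1 : (Polynomial.C δ * L : Polynomial K) = Polynomial.X - Polynomial.C ε' := by
    rw [hL, ← mul_assoc, ← map_mul, mul_inv_cancel₀ hδ, map_one, one_mul]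
  have h2 : (Polynomial.C δ * Polynomial.X + Polynomial.C ε').comp L = Polynomial.X := by
    simp only [Polynomial.add_comp, Polynomial.mul_comp, Polynomial.C_comp, Polynomial.X_comp, h1]
    ring
  have h3 : (Polynomial.C δ * Polynomial.X + Polynomial.C ε).comp L =
      Polynomial.X + Polynomial.C (ε - ε') := by
    simp only [Polynomial.add_comp, Polynomial.mul_comp, Polynomial.C_comp, Polynomial.X_comp, h1,
      map_sub]
    ring
  have h4 := congrArg (fun P => Polynomial.comp P L) h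
  have h5 := congrArg (fun P => Polynomial.comp P L) h'
  simp only [Polynomial.comp_assoc] at h4 h5
  rw [h3] at h4
  rw [h2, Polynomial.comp_X] at h5
  have h6 : (Polynomial.C δ' * Q).comp L = Q - Polynomial.C c' := by
    rw [Polynomial.add_comp, Polynomial.C_comp] at h5
    exact eq_sub_of_add_eq h5.symm
  have h7 : Q.comp (Polynomial.X + Polynomial.C (ε - ε')) = Q + Polynomial.C (c - c') := by
    rw [h4, Polynomial.add_comp, h6, Polynomial.C_comp, map_sub]
    ring
  exact sub_eq_zero.1 (period hQ h7)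

/-! ### relations between coordinates -/

theorem indep {b : K} {R : Polynomial K}
    (h : C b * X 0 + Polynomial.aeval (X 1 : MvPolynomial (Fin 2) K) R = 0) : b = 0 ∧ R = 0 := by
  have h1 : R = 0 := by
    have h2 := congrArg (aeval (![0, Polynomial.X] : Fin 2 → Polynomial K)) h
    rw [map_add, map_mul, aeval_X, map_zero] at h2
    have h3 : aeval (![0, Polynomial.X] : Fin 2 → Polynomial K)
        (Polynomial.aeval (X 1 : MvPolynomial (Fin 2) K) R) = R := by
      rw [← Polynomial.aeval_algHom_apply, aeval_X]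
      show Polynomial.aeval Polynomial.X R = R
      exact Polynomial.aeval_X_left_apply R
    rw [h3] at h2
    simpa using h2
  refine ⟨?_, h1⟩
  rw [h1, map_zero, add_zero] at h
  have h2 := congrArg (lc 0) h
  rw [lc_C_mul, lc_X, if_pos rfl, mul_one] at h2
  rw [h2]
  exact coeff_zero _

theorem neighbour {a e a0 : Aut2 K} (ha : a ∈ Aff K ∧ a ∉ Tri K) (he : e ∈ Tri K ∧ e ∉ Aff K)
    (ha0 : a0 ∈ Aff K ∧ a0 ∉ Tri K) : ∃ (μ : K) (Q : Polynomial K), μ ≠ 0 ∧ 2 ≤ Q.natDegree ∧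
      (e * a0) (X 1) = C μ * a (X 1) + Polynomial.aeval (X 1) Q := by
  obtain ⟨c, d, s, hc, h1⟩ := not_tri ha.1 ha.2
  obtain ⟨c0, d0, s0, hc0, h2⟩ := not_tri ha0.1 ha0.2
  obtain ⟨α, δ, ε, q, hα, hδ, h3, h4⟩ := he.1
  have hq := not_aff he.2 h3 h4
  obtain ⟨L, hL⟩ : ∃ L : Polynomial K, L = Polynomial.C (d0 * δ - c0 * α / c * d) * Polynomial.X +
    Polynomial.C (d0 * ε + s0 - c0 * α / c * s) := ⟨_, rfl⟩
  have hL1 : L.natDegree ≤ 1 := by
    rw [hL]
    exact Polynomial.natDegree_linear_le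
  refine ⟨c0 * α / c, Polynomial.C c0 * q + L, div_ne_zero (mul_ne_zero hc0 hα) hc, ?_, ?_⟩
  · rw [Polynomial.natDegree_add_eq_left_of_natDegree_lt, Polynomial.natDegree_C_mul hc0]
    · exact hq
    · rw [Polynomial.natDegree_C_mul hc0]
      omega
  · rw [AlgEquiv.mul_apply, h2, map_add, map_add, map_mul, map_mul, ap_C, ap_C, ap_C, h3, h4, h1,
      hL]
    have h5 : (C (c0 * α / c) * C c : MvPolynomial (Fin 2) K) = C (c0 * α) := by
      rw [← map_mul, div_mul_cancel₀ _ hc]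
    simp only [map_add, map_mul, map_sub, Polynomial.aeval_C, Polynomial.aeval_X,
      MvPolynomial.algebraMap_eq] at h5 ⊢
    linear_combination (-(X 0 : MvPolynomial (Fin 2) K)) * h5

theorem fixval {g u : Aut2 K} (h : g⁻¹ * u * g ∈ Tri K) :
    ∃ δ ε : K, δ ≠ 0 ∧ u (g (X 1)) = C δ * g (X 1) + C ε := by
  obtain ⟨α, δ, ε, q, _, hδ, _, h1⟩ := h
  refine ⟨δ, ε, hδ, ?_⟩
  have h2 : g⁻¹ (u (g (X 1))) = C δ * X 1 + C ε := h1
  have h3 := congrArg (fun p => g p) h2
  simp only [ap_inv] at h3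
  rw [h3, map_add, map_mul, ap_C, ap_C]

theorem relation {k a u : Aut2 K} (ha : a ∈ Aff K ∧ a ∉ Tri K) {μ : K} {Q : Polynomial K}
    (hμ : μ ≠ 0) {f0 : MvPolynomial (Fin 2) K}
    (hf : f0 = C μ * (k * a) (X 1) + Polynomial.aeval (k (X 1)) Q) {δ0 ε0 δ1 ε1 δ2 ε2 : K}
    (h0 : u f0 = C δ0 * f0 + C ε0) (h1 : u (k (X 1)) = C δ1 * k (X 1) + C ε1)
    (h2 : u ((k * a) (X 1)) = C δ2 * (k * a) (X 1) + C ε2) :
    ∃ c, Q.comp (Polynomial.C δ1 * Polynomial.X + Polynomial.C ε1) =
      Polynomial.C δ2 * Q + Polynomial.C c := by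
  obtain ⟨c, d, s, hc, h3⟩ := not_tri ha.1 ha.2
  have h4 : u f0 = C μ * (C δ2 * (k * a) (X 1) + C ε2) +
      Polynomial.aeval (k (X 1)) (Q.comp (Polynomial.C δ1 * Polynomial.X + Polynomial.C ε1)) := by
    rw [hf, map_add, map_mul, ap_C, h2, ap_aeval, h1, aeval_lin]
  rw [h0, hf, AlgEquiv.mul_apply, h3, map_add, map_add, map_mul, map_mul, ap_C, ap_C, ap_C] at h4
  obtain ⟨Q', hQ'⟩ : ∃ Q', Q' = Q.comp (Polynomial.C δ1 * Polynomial.X + Polynomial.C ε1) :=
    ⟨_, rfl⟩
  rw [← hQ'] at h4 ⊢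
  have h5 : C (μ * (δ2 - δ0) * c) * X 0 + Polynomial.aeval (X 1)
      (Polynomial.C (μ * (δ2 - δ0)) * (Polynomial.C d * Polynomial.X + Polynomial.C s) + Q' -
        Polynomial.C δ0 * Q + Polynomial.C (μ * ε2 - ε0)) = (0 : MvPolynomial (Fin 2) K) := by
    have h6 : k (C (μ * (δ2 - δ0) * c) * X 0 + Polynomial.aeval (X 1)
      (Polynomial.C (μ * (δ2 - δ0)) * (Polynomial.C d * Polynomial.X + Polynomial.C s) + Q' -
        Polynomial.C δ0 * Q + Polynomial.C (μ * ε2 - ε0))) = 0 := by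
      rw [map_add, map_mul, ap_C, ap_aeval]
      simp only [map_add, map_mul, map_sub, Polynomial.aeval_C, Polynomial.aeval_X,
        MvPolynomial.algebraMap_eq] at h4 ⊢
      linear_combination -h4
    have h7 := inv_eq h6
    rw [map_zero] at h7
    exact h7.symm
  obtain ⟨h6, h7⟩ := indep h5
  have h8 : δ2 - δ0 = 0 := by
    rcases mul_eq_zero.1 h6 with h | h
    · rcases mul_eq_zero.1 h with h | h
      · exact absurd h hμ
      · exact h
    · exact absurd h hc
  rw [h8, mul_zero, map_zero, zero_mul, zero_add] at h7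
  refine ⟨-(μ * ε2 - ε0), ?_⟩
  rw [sub_eq_zero.1 h8, map_neg]
  linear_combination h7

open Classical in
/-- only finitely many automorphisms fix a long path -/
theorem finite_fix [CharZero K] {k a e a0 e' a3 : Aut2 K} (ha : a ∈ Aff K ∧ a ∉ Tri K)
    (he : e ∈ Tri K ∧ e ∉ Aff K) (ha0 : a0 ∈ Aff K ∧ a0 ∉ Tri K) (he' : e' ∈ Tri K ∧ e' ∉ Aff K)
    (ha3 : a3 ∈ Aff K ∧ a3 ∉ Tri K) :
    {u : Aut2 K | (k * e * a0)⁻¹ * u * (k * e * a0) ∈ Tri K ∧ k⁻¹ * u * k ∈ Tri K ∧
      (k * a)⁻¹ * u * (k * a) ∈ Tri K ∧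
      (k * a * e' * a3)⁻¹ * u * (k * a * e' * a3) ∈ Tri K}.Finite := by
  obtain ⟨μ, Q, hμ, hQ, hn⟩ := neighbour ha he ha0
  have hai : a⁻¹ ∈ Aff K ∧ a⁻¹ ∉ Tri K :=
    ⟨(Aff K).inv_mem ha.1, fun h => ha.2 ((inv_mem_iff (H := Tri K)).1 h)⟩
  obtain ⟨μ', Q', hμ', hQ', hn'⟩ := neighbour hai he' ha3
  have hf0 : (k * e * a0) (X 1) = C μ * (k * a) (X 1) + Polynomial.aeval (k (X 1)) Q := by
    rw [mul_assoc, AlgEquiv.mul_apply, hn, map_add, map_mul, ap_C, ap_aeval]
    rfl
  have hf3 : (k * a * e' * a3) (X 1) =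
      C μ' * (k * a * a⁻¹) (X 1) + Polynomial.aeval ((k * a) (X 1)) Q' := by
    rw [mul_assoc, AlgEquiv.mul_apply, hn', map_add, map_mul, ap_C, ap_aeval]
    rfl
  have key : ∀ u : Aut2 K, (k * e * a0)⁻¹ * u * (k * e * a0) ∈ Tri K ∧ k⁻¹ * u * k ∈ Tri K ∧
      (k * a)⁻¹ * u * (k * a) ∈ Tri K ∧
      (k * a * e' * a3)⁻¹ * u * (k * a * e' * a3) ∈ Tri K →
      ∃ δ ε ε2 c c', δ ≠ 0 ∧ lc 1 ((k⁻¹ * u * k) (X 1)) = δ ∧
        u (k (X 1)) = C δ * k (X 1) + C ε ∧
        u ((k * a) (X 1)) = C (δ ^ Q.natDegree) * (k * a) (X 1) + C ε2 ∧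
        (δ ^ Q.natDegree) ^ Q'.natDegree = δ ∧
        Q.comp (Polynomial.C δ * Polynomial.X + Polynomial.C ε) =
          Polynomial.C (δ ^ Q.natDegree) * Q + Polynomial.C c ∧
        Q'.comp (Polynomial.C (δ ^ Q.natDegree) * Polynomial.X + Polynomial.C ε2) =
          Polynomial.C δ * Q' + Polynomial.C c' := by
    rintro u ⟨m0, m1, m2, m3⟩
    obtain ⟨δ0, ε0, _, v0⟩ := fixval m0
    obtain ⟨δ1, ε1, hδ1, v1⟩ := fixval m1
    obtain ⟨δ2, ε2, hδ2, v2⟩ := fixval m2
    obtain ⟨δ3, ε3, _, v3⟩ := fixval m3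
    obtain ⟨c, r1⟩ := relation (k := k) (a := a) (u := u) ha hμ hf0 v0 v1 v2
    obtain ⟨c', r2⟩ := relation (k := k * a) (a := a⁻¹) (u := u) hai hμ' hf3 v3 v2
      (by rw [mul_inv_cancel_right]; exact v1)
    have l1 := lead (by omega) hδ1 r1
    have l2 := lead (by omega) hδ2 r2
    refine ⟨δ1, ε1, ε2, c, c', hδ1, ?_, v1, ?_, ?_, ?_, ?_⟩
    · show lc 1 (k⁻¹ (u (k (X 1)))) = _
      rw [v1, map_add, map_mul, ap_C, ap_C, inv_ap, lc_add, lc_C_mul, lc_X, lc_C]
      simp
    · rw [l1]; exact v2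
    · rw [l1]; exact l2
    · rw [l1]; exact r1
    · rw [l1]; exact r2
  refine Set.Finite.of_finite_image (f := fun u : Aut2 K => lc 1 ((k⁻¹ * u * k) (X 1))) ?_ ?_
  · -- the values are roots of a polynomial
    obtain ⟨N, hN⟩ : ∃ N, N = Q.natDegree * Q'.natDegree := ⟨_, rfl⟩
    have hN2 : 1 < N := by
      rw [hN]
      nlinarith
    have h1 : (Polynomial.X ^ N - Polynomial.X : Polynomial K) ≠ 0 := by
      intro h
      have h2 := congrArg (fun P => Polynomial.coeff P N) h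
      simp only [Polynomial.coeff_sub, Polynomial.coeff_X_pow, if_true, Polynomial.coeff_zero] at h2
      rw [Polynomial.coeff_X_of_ne_one (by omega), sub_zero] at h2
      exact one_ne_zero h2
    refine ((Polynomial.X ^ N - Polynomial.X : Polynomial K).roots.toFinset.finite_toSet).subset ?_
    rintro _ ⟨u, hu, rfl⟩
    obtain ⟨δ, ε, ε2, c, c', hδ, hl, _, _, hp, _⟩ := key u hu
    rw [Finset.mem_coe, Multiset.mem_toFinset, Polynomial.mem_roots h1]
    show Polynomial.eval _ _ = 0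
    simp only [hl]
    rw [Polynomial.eval_sub, Polynomial.eval_pow, Polynomial.eval_X, hN, pow_mul, hp, sub_self]
  · intro u hu u' hu' huu
    obtain ⟨δ, ε, ε2, c, c', hδ, hl, w1, w2, hp, r1, r2⟩ := key u hu
    obtain ⟨δ', ε', ε2', d, d', hδ', hl', w1', w2', hp', r1', r2'⟩ := key u' hu'
    have hdd : δ = δ' := by
      rw [← hl, ← hl']
      exact huu
    subst hdd
    have he1 := unique hQ hδ r1 r1'
    have he2 := unique hQ' (pow_ne_zero _ hδ) r2 r2'
    rw [← he1] at w1'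
    rw [← he2] at w2'
    obtain ⟨c1, d1, s1, hc1, h3⟩ := not_tri ha.1 ha.2
    have g1 : (u * k) (X 1) = (u' * k) (X 1) := by
      show u (k (X 1)) = u' (k (X 1))
      rw [w1, w1']
    have g2 : (u * k) (a (X 1)) = (u' * k) (a (X 1)) := by
      show u ((k * a) (X 1)) = u' ((k * a) (X 1))
      rw [w2, w2']
    have g0 : (u * k) (X 0) = (u' * k) (X 0) := by
      rw [h3, map_add, map_add, map_mul, map_mul, map_add, map_add, map_mul, map_mul, ap_C, ap_C,
        ap_C, ap_C, ap_C, ap_C, g1] at g2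
      have g3 : C c1 * (u * k) (X 0) = C c1 * (u' * k) (X 0) := by linear_combination g2
      have hC : (C c1 : MvPolynomial (Fin 2) K) ≠ 0 := by
        rw [Ne, ← C_0, C_inj]
        exact hc1
      exact mul_left_cancel₀ hC g3
    have g4 : u * k = u' * k := by
      refine aut_ext fun i => ?_
      fin_cases i
      · exact g0
      · exact g1
    exact mul_right_cancel g4

end Pool.Agent.H34.PT
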