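import Pool.Agent.H34.PT.Fix
import Pool.Graph.R_pool_sql_team_seeded_3997aac3.Q182.CylDefs

/-!
# The group of the tame automorphisms of the plane in the Farrell-Jones class
-/

set_option autoImplicit false

namespace Pool.Agent.H34.PT

open MvPolynomial Pool.Agent.K7.H10.PA
open Pool.Agent.Y110.FJ (ClosedE)
open Q182.Cyl (ClosedA fi_mem vcyc_mem)
open Matrix

variable {K : Type} [Field K] {C : ∀ (G : Type) [Group G], Prop}

theorem finite_stab [CharZero K] (v w : Vt (AT K) (ET K)) (h : 7 ≤ (cg (AT K) (ET K)).dist v w) :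
    {f : Tame K | f • v = v ∧ f • w = w}.Finite := by
  obtain ⟨k, a, e, a0, e', a3, ha, he, ha0, he', ha3, hfix⟩ := (deg K).chain h
  have h1 := finite_fix (k := k.1) (a := a.1) (e := e.1) (a0 := a0.1) (e' := e'.1) (a3 := a3.1)
    ha he ha0 he' ha3
  refine (h1.preimage (f := (Subtype.val : Tame K → Aut2 K)) Subtype.val_injective.injOn).subset ?_
  rintro u ⟨hv, hw⟩
  exact hfix u hv hw

theorem stab_inl {g : Tame K} (hA : C (Aff K)) (hC : ClosedE C) :
    C (MulAction.stabilizer (Tame K) (Sum.inl (g : Tame K ⧸ AT K) : Vt (AT K) (ET K))) := by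
  have h1 : ∀ u : MulAction.stabilizer (Tame K) (Sum.inl (g : Tame K ⧸ AT K) : Vt (AT K) (ET K)),
      ((g⁻¹ * u.1 * g : Tame K) : Aut2 K) ∈ Aff K := by
    rintro ⟨u, hu⟩
    have h2 : (Sum.inl ((u * g : Tame K) : Tame K ⧸ AT K) : Vt (AT K) (ET K)) =
      Sum.inl (g : Tame K ⧸ AT K) := hu
    have h3 := Sum.inl.inj h2
    rw [eq_comm, QuotientGroup.eq] at h3
    rw [mul_assoc]
    exact h3
  refine hC.base.of_injective _ _ (MonoidHom.mk' (fun u => (⟨_, h1 u⟩ : Aff K)) ?_) ?_ hA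
  · intro u v
    have h2 : (g⁻¹ * (u.1 * v.1) * g : Tame K) = (g⁻¹ * u.1 * g) * (g⁻¹ * v.1 * g) := by group
    exact Subtype.ext (congrArg (fun z : Tame K => (z : Aut2 K)) h2)
  · intro u v huv
    have h2 := congrArg Subtype.val huv
    have h3 : (g⁻¹ * u.1 * g : Tame K) = g⁻¹ * v.1 * g := Subtype.ext h2
    exact Subtype.ext (mul_left_cancel (mul_right_cancel h3))

theorem stab_inr {g : Tame K} (hA : C (Tri K)) (hC : ClosedE C) :
    C (MulAction.stabilizer (Tame K) (Sum.inr (g : Tame K ⧸ ET K) : Vt (AT K) (ET K))) := by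
  have h1 : ∀ u : MulAction.stabilizer (Tame K) (Sum.inr (g : Tame K ⧸ ET K) : Vt (AT K) (ET K)),
      ((g⁻¹ * u.1 * g : Tame K) : Aut2 K) ∈ Tri K := by
    rintro ⟨u, hu⟩
    have h2 : (Sum.inr ((u * g : Tame K) : Tame K ⧸ ET K) : Vt (AT K) (ET K)) =
      Sum.inr (g : Tame K ⧸ ET K) := hu
    have h3 := Sum.inr.inj h2
    rw [eq_comm, QuotientGroup.eq] at h3
    rw [mul_assoc]
    exact h3
  refine hC.base.of_injective _ _ (MonoidHom.mk' (fun u => (⟨_, h1 u⟩ : Tri K)) ?_) ?_ hA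
  · intro u v
    have h2 : (g⁻¹ * (u.1 * v.1) * g : Tame K) = (g⁻¹ * u.1 * g) * (g⁻¹ * v.1 * g) := by group
    exact Subtype.ext (congrArg (fun z : Tame K => (z : Aut2 K)) h2)
  · intro u v huv
    have h2 := congrArg Subtype.val huv
    have h3 : (g⁻¹ * u.1 * g : Tame K) = g⁻¹ * v.1 * g := Subtype.ext h2
    exact Subtype.ext (mul_left_cancel (mul_right_cancel h3))

/-- the group of the tame automorphisms of the plane is in the class if `GL₂` is -/
theorem tame_mem (hC : ClosedA C) (hsol : ∀ (G : Type) [Group G], Group.IsSolvable G → C G)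
    [CharZero K] (hK : C (GL (Fin 2) K)) : C (Tame K) := by
  have hT := (deg K).treeAct
  have hA := aff_mem hC.base hsol hK
  have hE : C (Tri K) := hsol _ tri_solvable
  refine hC.acyl (Tame K) (Tame K) (Vt (AT K) (ET K)) (MonoidHom.id _) (cg (AT K) (ET K)) 7
    (fun g => ⟨g, rfl⟩) hT.isTree hT.adj hT.noInv finite_stab ?_ ?_
  · rintro (x | x)
    · obtain ⟨g, rfl⟩ := QuotientGroup.mk_surjective x
      exact stab_inl hA hC.base
    · obtain ⟨g, rfl⟩ := QuotientGroup.mk_surjective x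
      exact stab_inr hE hC.base
  · intro W hW
    exact vcyc_mem hC.base.base hW

theorem la_inj : Function.Injective (la : GL (Fin 2) K →* Aut2 K) := by
  have h1 : ∀ g : GL (Fin 2) K, LM (la g) = g.val := fun g => LM_of (b := 0) fun i => by
    rw [la_X, Pi.zero_apply, map_zero, add_zero]
  intro g g' h
  apply Units.ext
  rw [← h1 g, ← h1 g', h]

/-- `GL₂` is a subgroup of the group of the tame automorphisms -/
theorem gl_mem (hC : ClosedE C) (h : C (Tame K)) : C (GL (Fin 2) K) :=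
  hC.base.of_injective _ _ (la.codRestrict (Tame K) la_tame)
    (fun _ _ hg => la_inj (congrArg Subtype.val hg)) h

end Pool.Agent.H34.PT
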