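import Pool.Graph.R_pool_sql_team_seeded_35f281b4.K7.H10.PA.Tame

/-!
# Affine and triangular automorphisms of the plane, and their degrees
-/

set_option autoImplicit false

namespace Pool.Agent.H34.PT

open MvPolynomial Pool.Agent.K7.H10.PA

variable {K : Type} [Field K]

theorem inv_ap (φ : Aut2 K) (p : MvPolynomial (Fin 2) K) : φ⁻¹ (φ p) = p := φ.symm_apply_apply p

theorem ap_inv (φ : Aut2 K) (p : MvPolynomial (Fin 2) K) : φ (φ⁻¹ p) = p := φ.apply_symm_apply p

theorem inv_eq {φ : Aut2 K} {p q : MvPolynomial (Fin 2) K} (h : φ p = q) : φ⁻¹ q = p := by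
  rw [← h, inv_ap]

theorem ap_C (φ : Aut2 K) (c : K) : φ (C c) = C c := φ.commutes c

theorem ap_aeval (φ : Aut2 K) (f : MvPolynomial (Fin 2) K) (q : Polynomial K) :
    φ (Polynomial.aeval f q) = Polynomial.aeval (φ f) q :=
  (Polynomial.aeval_algHom_apply (φ : MvPolynomial (Fin 2) K →ₐ[K] MvPolynomial (Fin 2) K) f q).symm

/-! ### the affine group -/

theorem isAffine_iff {φ : Aut2 K} : IsAffine φ ↔ ∃ g b, φ = la g * tr b := by
  constructor
  · rintro ⟨g, b, h⟩
    refine ⟨g, b, aut_ext fun i => ?_⟩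
    rw [h i, AlgEquiv.mul_apply, tr_X, map_add, la_X, la_C]
  · rintro ⟨g, b, rfl⟩
    refine ⟨g, b, fun i => ?_⟩
    rw [AlgEquiv.mul_apply, tr_X, map_add, la_X, la_C]

theorem isAffine_mul {φ ψ : Aut2 K} (h : IsAffine φ) (h' : IsAffine ψ) : IsAffine (φ * ψ) := by
  obtain ⟨g, b, h⟩ := h
  obtain ⟨g', b', h'⟩ := h'
  refine ⟨g * g', fun i => ∑ j, g'.val j i * b j + b' i, fun i => ?_⟩
  rw [AlgEquiv.mul_apply, h', Fin.sum_univ_two, map_add, map_add, map_mul, map_mul, ap_C, ap_C,
    ap_C, h, h]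
  simp only [Fin.sum_univ_two, Units.val_mul, Matrix.mul_apply, map_add, map_mul]
  ring

theorem isAffine_la (g : GL (Fin 2) K) : IsAffine (la g) :=
  isAffine_iff.2 ⟨g, 0, by rw [tr_zero, mul_one]⟩

theorem isAffine_tr (b : Fin 2 → K) : IsAffine (tr b) :=
  isAffine_iff.2 ⟨1, b, by rw [map_one, one_mul]⟩

/-- the group of the affine automorphisms of the plane -/
noncomputable def Aff (K : Type) [Field K] : Subgroup (Aut2 K) where
  carrier := {φ | IsAffine φ}
  one_mem' := by
    have := isAffine_la (1 : GL (Fin 2) K)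
    rwa [map_one] at this
  mul_mem' := isAffine_mul
  inv_mem' := by
    intro φ h
    obtain ⟨g, b, rfl⟩ := isAffine_iff.1 h
    rw [_root_.mul_inv_rev, tr_inv, ← map_inv]
    exact isAffine_mul (isAffine_tr _) (isAffine_la _)

theorem mem_Aff {φ : Aut2 K} : φ ∈ Aff K ↔ IsAffine φ := Iff.rfl

/-! ### the triangular group -/

/-- `φ` is triangular: `φ (X 0) = α X 0 + q (X 1)` and `φ (X 1) = δ X 1 + ε` -/
def IsTri (φ : Aut2 K) : Prop :=
  ∃ (α δ ε : K) (q : Polynomial K), α ≠ 0 ∧ δ ≠ 0 ∧
    φ (X 0) = C α * X 0 + Polynomial.aeval (X 1) q ∧ φ (X 1) = C δ * X 1 + C ε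

theorem aeval_lin (f : MvPolynomial (Fin 2) K) (δ ε : K) (q : Polynomial K) :
    Polynomial.aeval (C δ * f + C ε) q =
      Polynomial.aeval f (q.comp (Polynomial.C δ * Polynomial.X + Polynomial.C ε)) := by
  rw [Polynomial.aeval_comp]
  congr 1
  simp [MvPolynomial.algebraMap_eq]

/-- the group of the triangular automorphisms of the plane -/
noncomputable def Tri (K : Type) [Field K] : Subgroup (Aut2 K) where
  carrier := {φ | IsTri φ}
  one_mem' := ⟨1, 1, 0, 0, one_ne_zero, one_ne_zero, by simp, by simp⟩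
  mul_mem' := by
    rintro φ ψ ⟨α, δ, ε, q, hα, hδ, h0, h1⟩ ⟨α', δ', ε', q', hα', hδ', h0', h1'⟩
    refine ⟨α * α', δ * δ', δ' * ε + ε', Polynomial.C α' * q +
      q'.comp (Polynomial.C δ * Polynomial.X + Polynomial.C ε), mul_ne_zero hα hα',
      mul_ne_zero hδ hδ', ?_, ?_⟩
    · rw [AlgEquiv.mul_apply, h0', map_add, map_mul, ap_C, h0, ap_aeval, h1, aeval_lin]
      simp only [map_add, map_mul, Polynomial.aeval_C, MvPolynomial.algebraMap_eq]
      ring
    · rw [AlgEquiv.mul_apply, h1', map_add, map_mul, ap_C, ap_C, h1, map_mul, map_add, map_mul]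
      ring
  inv_mem' := by
    rintro φ ⟨α, δ, ε, q, hα, hδ, h0, h1⟩
    have e1 : φ⁻¹ (X 1) = C δ⁻¹ * X 1 + C (-(δ⁻¹ * ε)) := by
      have h2 : φ (C δ⁻¹ * X 1 + C (-(δ⁻¹ * ε))) = X 1 := by
        rw [map_add, map_mul, ap_C, ap_C, h1, map_neg, map_mul, mul_add, ← mul_assoc, ← map_mul,
          inv_mul_cancel₀ hδ, map_one, one_mul]
        ring
      exact inv_eq h2
    refine ⟨α⁻¹, δ⁻¹, -(δ⁻¹ * ε), -(Polynomial.C α⁻¹ *
      q.comp (Polynomial.C δ⁻¹ * Polynomial.X + Polynomial.C (-(δ⁻¹ * ε)))), inv_ne_zero hα,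
      inv_ne_zero hδ, ?_, e1⟩
    have h3 : φ⁻¹ (C α * X 0 + Polynomial.aeval (X 1) q) = X 0 := by rw [← h0, inv_ap]
    rw [map_add, map_mul, ap_C, ap_aeval, e1, aeval_lin] at h3
    have h4 : φ⁻¹ (X 0) = C α⁻¹ * (C α * φ⁻¹ (X 0)) := by
      rw [← mul_assoc, ← map_mul, inv_mul_cancel₀ hα, map_one, one_mul]
    obtain ⟨r, hr⟩ : ∃ r, r = q.comp (Polynomial.C δ⁻¹ * Polynomial.X +
      Polynomial.C (-(δ⁻¹ * ε))) := ⟨_, rfl⟩
    rw [← hr] at h3 ⊢
    rw [h4, eq_sub_of_add_eq h3]
    simp only [map_neg, map_mul, Polynomial.aeval_C, MvPolynomial.algebraMap_eq]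
    ring

theorem mem_Tri {φ : Aut2 K} : φ ∈ Tri K ↔ IsTri φ := Iff.rfl

/-! ### degrees -/

/-- the larger of the degrees of the images of the coordinates -/
noncomputable def nn (φ : Aut2 K) : ℕ := max (φ (X 0)).totalDegree (φ (X 1)).totalDegree

/-- the degree of the image of the second coordinate -/
noncomputable def mm (φ : Aut2 K) : ℕ := (φ (X 1)).totalDegree

theorem td_C_mul (c : K) (f : MvPolynomial (Fin 2) K) : (C c * f).totalDegree ≤ f.totalDegree := by
  refine (totalDegree_mul _ _).trans ?_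
  rw [totalDegree_C, zero_add]

theorem td_C_mul_eq {c : K} (hc : c ≠ 0) (f : MvPolynomial (Fin 2) K) :
    (C c * f).totalDegree = f.totalDegree := by
  refine le_antisymm (td_C_mul c f) ?_
  have h := td_C_mul c⁻¹ (C c * f)
  rwa [← mul_assoc, ← map_mul, inv_mul_cancel₀ hc, map_one, one_mul] at h

theorem td_add_C (f : MvPolynomial (Fin 2) K) (c : K) :
    (f + C c).totalDegree ≤ f.totalDegree := by
  refine (totalDegree_add _ _).trans ?_
  rw [totalDegree_C]
  simp

theorem td_lin {f g : MvPolynomial (Fin 2) K} {d : ℕ} (hf : f.totalDegree ≤ d)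
    (hg : g.totalDegree ≤ d) (a b c : K) : (C a * f + C b * g + C c).totalDegree ≤ d := by
  refine (td_add_C _ _).trans ((totalDegree_add _ _).trans (max_le ?_ ?_))
  · exact (td_C_mul _ _).trans hf
  · exact (td_C_mul _ _).trans hg

theorem nn_mul_le (φ : Aut2 K) {a : Aut2 K} (ha : IsAffine a) : nn (φ * a) ≤ nn φ := by
  obtain ⟨g, b, h⟩ := ha
  have key : ∀ i, ((φ * a) (X i)).totalDegree ≤ nn φ := by
    intro i
    rw [AlgEquiv.mul_apply, h, Fin.sum_univ_two, map_add, map_add, map_mul, map_mul, ap_C, ap_C,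
      ap_C]
    exact td_lin (le_max_left _ _) (le_max_right _ _) _ _ _
  exact max_le (key 0) (key 1)

theorem nn_mul (φ : Aut2 K) {a : Aut2 K} (ha : a ∈ Aff K) : nn (φ * a) = nn φ := by
  refine le_antisymm (nn_mul_le φ ha) ?_
  have h := nn_mul_le (φ * a) ((Aff K).inv_mem ha)
  rwa [mul_inv_cancel_right] at h

theorem mm_mul_le (φ : Aut2 K) {e : Aut2 K} (he : IsTri e) : mm (φ * e) ≤ mm φ := by
  obtain ⟨α, δ, ε, q, _, _, _, h⟩ := he
  show ((φ * e) (X 1)).totalDegree ≤ _
  rw [AlgEquiv.mul_apply, h, map_add, map_mul, ap_C, ap_C]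
  exact (td_add_C _ _).trans (td_C_mul _ _)

theorem mm_mul (φ : Aut2 K) {e : Aut2 K} (he : e ∈ Tri K) : mm (φ * e) = mm φ := by
  refine le_antisymm (mm_mul_le φ he) ?_
  have h := mm_mul_le (φ * e) ((Tri K).inv_mem he)
  rwa [mul_inv_cancel_right] at h

theorem C_ne_X (c : K) (i : Fin 2) : (C c : MvPolynomial (Fin 2) K) ≠ X i := by
  intro h
  have h1 := congrArg totalDegree h
  rw [totalDegree_C, totalDegree_X] at h1
  exact absurd h1 (by norm_num)

theorem td_pos (φ : Aut2 K) (f : MvPolynomial (Fin 2) K) (hf : ∀ c, f ≠ C c) :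
    1 ≤ (φ f).totalDegree := by
  by_contra hcon
  have h0 : (φ f).totalDegree = 0 := by omega
  rw [totalDegree_eq_zero_iff_eq_C] at h0
  have h1 := inv_eq h0
  rw [ap_C] at h1
  exact hf _ h1.symm

theorem mm_pos (φ : Aut2 K) : 1 ≤ mm φ := td_pos φ (X 1) fun c => (C_ne_X c 1).symm

/-! ### the degree of a polynomial in a polynomial -/

theorem td_aeval_le (f : MvPolynomial (Fin 2) K) (q : Polynomial K) {d : ℕ}
    (hq : q.natDegree ≤ d) : (Polynomial.aeval f q).totalDegree ≤ d * f.totalDegree := by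
  rw [Polynomial.aeval_eq_sum_range]
  refine totalDegree_finsetSum_le fun i hi => ?_
  refine (totalDegree_smul_le _ _).trans ((totalDegree_pow _ _).trans ?_)
  refine Nat.mul_le_mul_right _ ?_
  have := Finset.mem_range.1 hi
  omega

theorem td_pow {f : MvPolynomial (Fin 2) K} (hf : f ≠ 0) (n : ℕ) :
    (f ^ n).totalDegree = n * f.totalDegree := by
  induction n with
  | zero => simp
  | succ n ih =>
    rw [pow_succ, totalDegree_mul_of_isDomain (pow_ne_zero _ hf) hf, ih]
    ring

theorem td_aeval {f : MvPolynomial (Fin 2) K} (hf : 1 ≤ f.totalDegree) {q : Polynomial K}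
    (hq : 1 ≤ q.natDegree) :
    (Polynomial.aeval f q).totalDegree = q.natDegree * f.totalDegree := by
  have hf0 : f ≠ 0 := by
    rintro rfl
    rw [totalDegree_zero] at hf
    omega
  have hq0 : q ≠ 0 := by
    rintro rfl
    rw [Polynomial.natDegree_zero] at hq
    omega
  have h1 : Polynomial.aeval f q = C q.leadingCoeff * f ^ q.natDegree +
      Polynomial.aeval f q.eraseLead := by
    conv_lhs => rw [← Polynomial.eraseLead_add_monomial_natDegree_leadingCoeff q]
    rw [map_add, Polynomial.aeval_monomial, MvPolynomial.algebraMap_eq]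
    ring
  have h2 : (C q.leadingCoeff * f ^ q.natDegree).totalDegree = q.natDegree * f.totalDegree := by
    rw [td_C_mul_eq (Polynomial.leadingCoeff_ne_zero.2 hq0), td_pow hf0]
  have h3 : (Polynomial.aeval f q.eraseLead).totalDegree ≤ (q.natDegree - 1) * f.totalDegree :=
    td_aeval_le f _ (Polynomial.eraseLead_natDegree_le _)
  rw [h1, totalDegree_add_eq_left_of_totalDegree_lt, h2]
  rw [h2]
  refine lt_of_le_of_lt h3 ?_
  exact Nat.mul_lt_mul_of_pos_right (by omega) (by omega)

/-! ### degree one -/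

theorem ext_lin {f : MvPolynomial (Fin 2) K} (hf : f.totalDegree ≤ 1) :
    ∃ a b c : K, f = C a * X 0 + C b * X 1 + C c := by
  classical
  refine ⟨lc 0 f, lc 1 f, constantCoeff f, ?_⟩
  ext m
  by_cases hm : f.coeff m = 0 ∧ 2 ≤ m 0 + m 1
  · have h0 : m ≠ 0 := by
      rintro rfl
      exact absurd hm.2 (by simp)
    have h1 : ∀ j : Fin 2, m ≠ Finsupp.single j 1 := by
      rintro j rfl
      fin_cases j <;> exact absurd hm.2 (by simp)
    rw [hm.1, coeff_add, coeff_add, coeff_C_mul, coeff_C_mul, coeff_X, coeff_X, coeff_C,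
      if_neg (fun h => h1 0 h.symm), if_neg (fun h => h1 1 h.symm), if_neg (fun h => h0 h.symm)]
    simp
  · have hle : m 0 + m 1 ≤ 1 := by
      by_contra hcon
      apply hm
      refine ⟨?_, by omega⟩
      by_contra hne
      have h1 := le_totalDegree (mem_support_iff.2 hne)
      have h2 : (m.sum fun _ e => e) = m 0 + m 1 := by
        rw [Finsupp.sum_fintype _ _ (fun _ => rfl), Fin.sum_univ_two]
      omega
    have hcases : m = 0 ∨ m = Finsupp.single 0 1 ∨ m = Finsupp.single 1 1 := by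
      rcases Nat.eq_zero_or_pos (m 0) with h0 | h0
      · rcases Nat.eq_zero_or_pos (m 1) with h1 | h1
        · left
          ext j
          fin_cases j
          · simpa using h0
          · simpa using h1
        · right; right
          ext j
          fin_cases j
          · simpa using h0
          · simp
            omega
      · right; left
        ext j
        fin_cases j
        · simp
          omega
        · simp
          omega
    have h01 : (Finsupp.single (0 : Fin 2) 1 : Fin 2 →₀ ℕ) ≠ Finsupp.single 1 1 := by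
      intro h
      have := DFunLike.congr_fun h 0
      simp at this
    have h00 : ∀ j : Fin 2, (Finsupp.single j 1 : Fin 2 →₀ ℕ) ≠ 0 := by
      intro j h
      have := DFunLike.congr_fun h j
      simp at this
    rw [coeff_add, coeff_add, coeff_C_mul, coeff_C_mul, coeff_X, coeff_X, coeff_C]
    rcases hcases with rfl | rfl | rfl
    · rw [if_neg (h00 0), if_neg (h00 1), if_pos rfl]
      simp [constantCoeff_eq]
    · rw [if_pos rfl, if_neg h01.symm, if_neg (h00 0).symm]
      simp [lc]
    · rw [if_neg h01, if_pos rfl, if_neg (h00 1).symm]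
      simp [lc]

theorem nn_le_one {φ : Aut2 K} (h : nn φ ≤ 1) : φ ∈ Aff K := by
  obtain ⟨a, b, c, h0⟩ := ext_lin ((le_max_left _ _).trans h)
  obtain ⟨a', b', c', h1⟩ := ext_lin ((le_max_right _ _).trans h)
  have hdet : a * b' - a' * b ≠ 0 := by
    intro hd
    -- some combination of the images of the coordinates is constant
    have key : ∀ s t r : K, φ (C s * X 0 + C t * X 1) = C r → s = 0 ∧ t = 0 := by
      intro s t r h2
      have h3 : C s * X 0 + C t * X 1 = (C r : MvPolynomial (Fin 2) K) := by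
        have h4 := inv_eq h2
        rw [ap_C] at h4
        exact h4.symm
      constructor
      · have h4 := congrArg (lc 0) h3
        rw [lc_add, lc_C_mul, lc_C_mul, lc_X, lc_X, lc_C] at h4
        simpa using h4
      · have h4 := congrArg (lc 1) h3
        rw [lc_add, lc_C_mul, lc_C_mul, lc_X, lc_X, lc_C] at h4
        simpa using h4
    have k1 := key b' (-b) (b' * c - b * c') (by
      rw [map_add, map_mul, map_mul, ap_C, ap_C, h0, h1]
      have : C b' * (C a * X 0 + C b * X 1 + C c) + C (-b) * (C a' * X 0 + C b' * X 1 + C c') =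
          C (a * b' - a' * b) * X 0 + (C (b' * c - b * c') : MvPolynomial (Fin 2) K) := by
        simp only [map_sub, map_mul, map_neg]
        ring
      rw [this, hd, map_zero, zero_mul, zero_add])
    have k2 := key a' (-a) (a' * c - a * c') (by
      rw [map_add, map_mul, map_mul, ap_C, ap_C, h0, h1]
      have : C a' * (C a * X 0 + C b * X 1 + C c) + C (-a) * (C a' * X 0 + C b' * X 1 + C c') =
          -(C (a * b' - a' * b) * X 1) + (C (a' * c - a * c') : MvPolynomial (Fin 2) K) := by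
        simp only [map_sub, map_mul, map_neg]
        ring
      rw [this, hd, map_zero, zero_mul, neg_zero, zero_add])
    have ha : a = 0 := by simpa using k2.2
    have hb : b = 0 := by simpa using k1.2
    rw [ha, hb, map_zero, zero_mul, zero_mul, zero_add, zero_add] at h0
    have h2 := inv_eq h0
    rw [ap_C] at h2
    exact C_ne_X c 0 h2
  refine ⟨Matrix.GeneralLinearGroup.mkOfDetNeZero !![a, a'; b, b'] ?_, ![c, c'], fun i => ?_⟩
  · rw [Matrix.det_fin_two]
    simpa [mul_comm] using hdet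
  · fin_cases i
    · rw [Fin.sum_univ_two]
      simpa [Matrix.GeneralLinearGroup.mkOfDetNeZero] using h0
    · rw [Fin.sum_univ_two]
      simpa [Matrix.GeneralLinearGroup.mkOfDetNeZero] using h1

end Pool.Agent.H34.PT
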