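import Pool.Agent.H34.PT.Tree
import Pool.Agent.H34.PT.Poly
import Pool.Graph.R_pool_sql_team_seeded_3997aac3.Q182.CylVc

/-!
# The affine and the triangular group in the Farrell-Jones class, and the degree functions
-/

set_option autoImplicit false

namespace Pool.Agent.H34.PT

open MvPolynomial Pool.Agent.K7.H10.PA
open Pool.Agent.Y110.FJ (ClosedE)
open Q182.Cyl (fi_mem vcyc_mem)

/-! ### extensions with a commutative kernel -/

theorem abelian_ext {C : ∀ (G : Type) [Group G], Prop} (hC : ClosedE C)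
    (hsol : ∀ (G : Type) [Group G], Group.IsSolvable G → C G) {G Q : Type} [Group G] [Group Q]
    (π : G →* Q) (hπ : Function.Surjective π) (hQ : C Q)
    (hcomm : ∀ a b, π a = 1 → π b = 1 → a * b = b * a) : C G := by
  refine hC.ext G Q π hπ hQ ?_
  rintro W ⟨c, hcW, hc⟩
  refine fi_mem hC.base (K := (Subgroup.zpowers c).comap π) ?_ ?_
  · rw [Subgroup.relIndex_comap, Subgroup.map_comap_eq_self_of_surjective hπ]
    exact hc
  · apply hsol
    have h1 : Group.IsSolvable π.ker := by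
      refine Group.isSolvable_of_comm fun a b => ?_
      exact Subtype.ext (hcomm a.1 b.1 a.2 b.2)
    have h2 : Group.IsSolvable (Subgroup.zpowers c) := by
      refine Group.isSolvable_of_comm ?_
      rintro ⟨_, i, rfl⟩ ⟨_, j, rfl⟩
      refine Subtype.ext ?_
      show c ^ i * c ^ j = c ^ j * c ^ i
      rw [← zpow_add, ← zpow_add, add_comm]
    obtain ⟨K, hK⟩ : ∃ K : Subgroup G, K = (Subgroup.zpowers c).comap π := ⟨_, rfl⟩
    rw [← hK]
    have hK' : ∀ x : G, x ∈ K ↔ π x ∈ Subgroup.zpowers c := fun x => by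
      rw [hK]
      exact Iff.rfl
    have h3 : ∀ x : K, π x ∈ Subgroup.zpowers c := fun x => (hK' x).1 x.2
    have h4 : ∀ x : π.ker, (x : G) ∈ K := by
      intro x
      rw [hK', MonoidHom.mem_ker.1 x.2]
      exact one_mem _
    let f : π.ker →* K := (π.ker.subtype).codRestrict K h4
    let g : K →* Subgroup.zpowers c := (π.comp K.subtype).codRestrict _ h3
    refine Group.isSolvable_of_ker_le_range f g ?_
    intro x hx
    have h5 : π x = 1 := congrArg Subtype.val hx
    exact ⟨⟨x, h5⟩, rfl⟩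

variable {K : Type} [Field K]

/-! ### the affine group -/

theorem LM_of {φ : Aut2 K} {g : Matrix (Fin 2) (Fin 2) K} {b : Fin 2 → K}
    (h : ∀ i, φ (X i) = ∑ j, C (g j i) * X j + C (b i)) : LM φ = g := by
  ext j i
  show lc j (φ (X i)) = _
  rw [h, Fin.sum_univ_two, lc_add, lc_add, lc_C, lc_C_mul, lc_C_mul, lc_X, lc_X]
  fin_cases j <;> simp

theorem LM_mul_aff {φ ψ : Aut2 K} (hφ : IsAffine φ) (hψ : IsAffine ψ) :
    LM (φ * ψ) = LM φ * LM ψ := by
  obtain ⟨g, b, h⟩ := hφ
  obtain ⟨g', b', h'⟩ := hψ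
  rw [LM_of h, LM_of h', LM_of (g := g.val * g'.val) (b := fun i => ∑ j, g'.val j i * b j + b' i)]
  intro i
  rw [AlgEquiv.mul_apply, h', Fin.sum_univ_two, map_add, map_add, map_mul, map_mul, ap_C, ap_C,
    ap_C, h, h]
  simp only [Fin.sum_univ_two, Matrix.mul_apply, map_add, map_mul]
  ring

/-- the linear part of an affine automorphism -/
noncomputable def lpart (K : Type) [Field K] : Aff K →* GL (Fin 2) K where
  toFun φ := ⟨LM φ.1, LM φ.1⁻¹, by
      rw [← LM_mul_aff φ.2 ((Aff K).inv_mem φ.2), mul_inv_cancel, LM_one],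
    by rw [← LM_mul_aff ((Aff K).inv_mem φ.2) φ.2, inv_mul_cancel, LM_one]⟩
  map_one' := Units.ext LM_one
  map_mul' φ ψ := Units.ext (LM_mul_aff φ.2 ψ.2)

theorem lpart_surj : Function.Surjective (lpart K) := fun g =>
  ⟨⟨la g, isAffine_la g⟩, Units.ext (LM_of (b := 0) fun i => by
    show la g (X i) = _
    rw [la_X, Pi.zero_apply, map_zero, add_zero])⟩

theorem lpart_ker {φ : Aff K} (h : lpart K φ = 1) : ∃ b, φ.1 = tr b := by
  obtain ⟨g, b, h1⟩ := φ.2
  have h2 : LM φ.1 = 1 := congrArg Units.val h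
  rw [LM_of h1] at h2
  refine ⟨b, aut_ext fun i => ?_⟩
  rw [h1, h2, tr_X, Fin.sum_univ_two, Matrix.one_apply, Matrix.one_apply]
  fin_cases i <;> simp

theorem aff_mem {C : ∀ (G : Type) [Group G], Prop} (hC : ClosedE C)
    (hsol : ∀ (G : Type) [Group G], Group.IsSolvable G → C G) (hK : C (GL (Fin 2) K)) :
    C (Aff K) := by
  refine abelian_ext hC hsol (lpart K) lpart_surj hK ?_
  intro a b ha hb
  obtain ⟨s, hs⟩ := lpart_ker ha
  obtain ⟨t, ht⟩ := lpart_ker hb
  refine Subtype.ext ?_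
  show a.1 * b.1 = b.1 * a.1
  rw [hs, ht, tr_mul, tr_mul, add_comm]

/-! ### the triangular group -/

theorem lc_aeval_zero (q : Polynomial K) :
    lc 0 (Polynomial.aeval (X 1 : MvPolynomial (Fin 2) K) q) = 0 := by
  induction q using Polynomial.induction_on with
  | C a => rw [Polynomial.aeval_C, MvPolynomial.algebraMap_eq, lc_C]
  | add p q hp hq => rw [map_add, lc_add, hp, hq, add_zero]
  | monomial n a h =>
    rw [pow_succ, ← mul_assoc, map_mul, Polynomial.aeval_X, lc_mul, h, lc_X, constantCoeff_X]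
    simp

/-- the diagonal coefficients of a triangular automorphism -/
noncomputable def chi (K : Type) [Field K] : Tri K →* Kˣ × Kˣ where
  toFun φ := (Units.mk0 (lc 0 (φ.1 (X 0))) (by
      obtain ⟨α, δ, ε, q, hα, hδ, h0, h1⟩ := φ.2
      rw [h0, lc_add, lc_C_mul, lc_X, lc_aeval_zero]
      simpa using hα),
    Units.mk0 (lc 1 (φ.1 (X 1))) (by
      obtain ⟨α, δ, ε, q, hα, hδ, h0, h1⟩ := φ.2
      rw [h1, lc_add, lc_C_mul, lc_X, lc_C]
      simpa using hδ))
  map_one' := by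
    refine Prod.ext (Units.ext ?_) (Units.ext ?_)
    · show lc 0 (X 0) = 1
      rw [lc_X, if_pos rfl]
    · show lc 1 (X 1) = 1
      rw [lc_X, if_pos rfl]
  map_mul' φ ψ := by
    obtain ⟨α, δ, ε, q, hα, hδ, h0, h1⟩ := φ.2
    obtain ⟨α', δ', ε', q', hα', hδ', h0', h1'⟩ := ψ.2
    refine Prod.ext (Units.ext ?_) (Units.ext ?_)
    · show lc 0 (φ.1 (ψ.1 (X 0))) = lc 0 (φ.1 (X 0)) * lc 0 (ψ.1 (X 0))
      rw [h0', map_add, map_mul, ap_C, h0, ap_aeval, h1, aeval_lin]
      simp only [lc_add, lc_C_mul, lc_aeval_zero, lc_X, if_true]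
      ring
    · show lc 1 (φ.1 (ψ.1 (X 1))) = lc 1 (φ.1 (X 1)) * lc 1 (ψ.1 (X 1))
      rw [h1', map_add, map_mul, ap_C, ap_C, h1]
      simp only [lc_add, lc_C_mul, lc_C, lc_X, if_true]
      ring

theorem chi_ker {φ : Tri K} (h : φ ∈ (chi K).ker) : ∃ (ε : K) (q : Polynomial K),
    φ.1 (X 0) = X 0 + Polynomial.aeval (X 1) q ∧ φ.1 (X 1) = X 1 + C ε := by
  obtain ⟨α, δ, ε, q, hα, hδ, h0, h1⟩ := φ.2
  have h2 : lc 0 (φ.1 (X 0)) = 1 := congrArg (fun p : Kˣ × Kˣ => (p.1 : K)) h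
  have h3 : lc 1 (φ.1 (X 1)) = 1 := congrArg (fun p : Kˣ × Kˣ => (p.2 : K)) h
  rw [h0, lc_add, lc_C_mul, lc_X, lc_aeval_zero] at h2
  rw [h1, lc_add, lc_C_mul, lc_X, lc_C] at h3
  have h4 : α = 1 := by simpa using h2
  have h5 : δ = 1 := by simpa using h3
  refine ⟨ε, q, ?_, ?_⟩
  · rw [h0, h4, map_one, one_mul]
  · rw [h1, h5, map_one, one_mul]

/-- the translation part of a unipotent triangular automorphism -/
noncomputable def eps (K : Type) [Field K] : (chi K).ker →* Multiplicative K where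
  toFun φ := Multiplicative.ofAdd (constantCoeff (φ.1.1 (X 1)))
  map_one' := by
    show Multiplicative.ofAdd (constantCoeff (X 1 : MvPolynomial (Fin 2) K)) = 1
    rw [constantCoeff_X]
    rfl
  map_mul' φ ψ := by
    obtain ⟨ε, q, h0, h1⟩ := chi_ker φ.2
    obtain ⟨ε', q', h0', h1'⟩ := chi_ker ψ.2
    show Multiplicative.ofAdd (constantCoeff (φ.1.1 (ψ.1.1 (X 1)))) = _
    rw [← ofAdd_add, h1', map_add, ap_C, h1]
    congr 1
    simp

theorem eps_ker {φ : (chi K).ker} (h : φ ∈ (eps K).ker) : ∃ q : Polynomial K,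
    φ.1.1 (X 0) = X 0 + Polynomial.aeval (X 1) q ∧ φ.1.1 (X 1) = X 1 := by
  obtain ⟨ε, q, h0, h1⟩ := chi_ker φ.2
  have h2 : constantCoeff (φ.1.1 (X 1)) = 0 := congrArg Multiplicative.toAdd h
  rw [h1] at h2
  have h3 : ε = 0 := by simpa using h2
  exact ⟨q, h0, by rw [h1, h3, map_zero, add_zero]⟩

theorem tri_solvable : Group.IsSolvable (Tri K) := by
  have h1 : Group.IsSolvable (eps K).ker := by
    refine Group.isSolvable_of_comm fun a b => ?_
    obtain ⟨q, h0, h1⟩ := eps_ker a.2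
    obtain ⟨q', h0', h1'⟩ := eps_ker b.2
    refine Subtype.ext (Subtype.ext (Subtype.ext (aut_ext fun i => ?_)))
    show a.1.1.1 (b.1.1.1 (X i)) = b.1.1.1 (a.1.1.1 (X i))
    fin_cases i
    · show a.1.1.1 (b.1.1.1 (X 0)) = b.1.1.1 (a.1.1.1 (X 0))
      rw [h0, h0', map_add, map_add, ap_aeval, ap_aeval, h0, h0', h1, h1']
      ring
    · show a.1.1.1 (b.1.1.1 (X 1)) = b.1.1.1 (a.1.1.1 (X 1))
      rw [h1, h1', h1]
  have h2 : Group.IsSolvable (chi K).ker :=
    Group.isSolvable_of_ker_le_range (eps K).ker.subtype (eps K) (by rw [Subgroup.range_subtype])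
  exact Group.isSolvable_of_ker_le_range (chi K).ker.subtype (chi K)
    (by rw [Subgroup.range_subtype])

/-! ### the degree functions -/

theorem aff_of {φ : Aut2 K} {a b c a' b' c' : K} (h0 : φ (X 0) = C a * X 0 + C b * X 1 + C c)
    (h1 : φ (X 1) = C a' * X 0 + C b' * X 1 + C c') : φ ∈ Aff K := by
  refine nn_le_one (max_le ?_ ?_)
  · rw [h0]
    exact td_lin (totalDegree_X _).le (totalDegree_X _).le _ _ _
  · rw [h1]
    exact td_lin (totalDegree_X _).le (totalDegree_X _).le _ _ _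

theorem tri_of_zero {a : Aut2 K} {g : GL (Fin 2) K} {b : Fin 2 → K}
    (hg : ∀ i, a (X i) = ∑ j, C (g.val j i) * X j + C (b i)) (h01 : g.val 0 1 = 0) :
    a ∈ Tri K := by
  have h0 := hg 0
  have h1 := hg 1
  rw [Fin.sum_univ_two] at h0 h1
  have hdet : g.val 0 0 * g.val 1 1 ≠ 0 := by
    have h2 : g.val.det ≠ 0 := by
      have := (Matrix.isUnit_iff_isUnit_det _).1 g.isUnit
      exact this.ne_zero
    rw [Matrix.det_fin_two, h01, zero_mul, sub_zero] at h2
    exact h2
  refine ⟨g.val 0 0, g.val 1 1, b 1, Polynomial.C (g.val 1 0) * Polynomial.X + Polynomial.C (b 0),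
    left_ne_zero_of_mul hdet, right_ne_zero_of_mul hdet, ?_, ?_⟩
  · rw [h0]
    simp only [map_add, map_mul, Polynomial.aeval_C, Polynomial.aeval_X,
      MvPolynomial.algebraMap_eq]
    ring
  · rw [h1, h01, map_zero, zero_mul, zero_add]

theorem not_tri {a : Aut2 K} (ha : a ∈ Aff K) (hn : a ∉ Tri K) :
    ∃ c d s : K, c ≠ 0 ∧ a (X 1) = C c * X 0 + C d * X 1 + C s := by
  obtain ⟨g, b, hg⟩ := ha
  refine ⟨g.val 0 1, g.val 1 1, b 1, fun h => hn (tri_of_zero hg h), ?_⟩
  rw [hg, Fin.sum_univ_two]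

theorem uE_aut {φ a : Aut2 K} (hφ : mm φ < nn φ) (ha : a ∈ Aff K) (h : mm (φ * a) < nn φ) :
    a ∈ Tri K := by
  by_contra hn
  obtain ⟨c, d, s, hne, h1⟩ := not_tri ha hn
  have h2 : C c * φ (X 0) = (φ * a) (X 1) - (C d * φ (X 1) + C s) := by
    rw [AlgEquiv.mul_apply, h1, map_add, map_add, map_mul, map_mul, ap_C, ap_C, ap_C]
    ring
  have h3 : (φ (X 0)).totalDegree < nn φ := by
    rw [← td_C_mul_eq hne, h2]
    refine lt_of_le_of_lt (totalDegree_sub _ _) (max_lt h ?_)
    exact lt_of_le_of_lt ((td_add_C _ _).trans (td_C_mul _ _)) hφ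
  exact absurd (max_lt h3 hφ) (lt_irrefl _)

theorem not_aff {e : Aut2 K} {α δ ε : K} {q : Polynomial K} (he : e ∉ Aff K)
    (h0 : e (X 0) = C α * X 0 + Polynomial.aeval (X 1) q) (h1 : e (X 1) = C δ * X 1 + C ε) :
    2 ≤ q.natDegree := by
  by_contra hq
  apply he
  have hq' := Polynomial.eq_X_add_C_of_natDegree_le_one (p := q) (by omega)
  refine aff_of (a := α) (b := q.coeff 1) (c := q.coeff 0) (a' := 0) (b' := δ) (c' := ε) ?_ ?_
  · rw [h0]
    conv_lhs => rw [hq']
    simp only [map_add, map_mul, Polynomial.aeval_C, Polynomial.aeval_X,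
      MvPolynomial.algebraMap_eq]
    ring
  · rw [h1, map_zero, zero_mul, zero_add]

theorem uA_aut {φ e : Aut2 K} (hφ : nn φ = mm φ) (he : e ∈ Tri K) (h : nn (φ * e) = mm φ) :
    e ∈ Aff K := by
  by_contra hcon
  obtain ⟨α, δ, ε, q, hα, hδ, h0, h1⟩ := he
  have hq := not_aff hcon h0 h1
  have h2 : Polynomial.aeval (φ (X 1)) q = (φ * e) (X 0) - C α * φ (X 0) := by
    rw [AlgEquiv.mul_apply, h0, map_add, map_mul, ap_C, ap_aeval]
    ring
  have h3 : (Polynomial.aeval (φ (X 1)) q).totalDegree ≤ mm φ := by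
    rw [h2]
    refine (totalDegree_sub _ _).trans (max_le ?_ ?_)
    · rw [← h]
      exact le_max_left _ _
    · refine (td_C_mul _ _).trans ?_
      rw [← hφ]
      exact le_max_left _ _
  rw [td_aeval (mm_pos φ) (by omega)] at h3
  have h4 := mm_pos φ
  have h5 : 2 * mm φ ≤ q.natDegree * (φ (X 1)).totalDegree := Nat.mul_le_mul_right _ hq
  omega

/-- the affine group in the group of the tame automorphisms -/
noncomputable abbrev AT (K : Type) [Field K] : Subgroup (Tame K) := (Aff K).subgroupOf (Tame K)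

/-- the triangular group in the group of the tame automorphisms -/
noncomputable abbrev ET (K : Type) [Field K] : Subgroup (Tame K) := (Tri K).subgroupOf (Tame K)

theorem gen_tame (g : Tame K) : g ∈ Subgroup.closure ((AT K : Set (Tame K)) ∪ ET K) := by
  obtain ⟨g, hg⟩ := g
  have key : ∀ (x : Aut2 K) (hx : x ∈ Tame K),
      (⟨x, hx⟩ : Tame K) ∈ Subgroup.closure ((AT K : Set (Tame K)) ∪ ET K) := by
    intro x hx
    induction hx using Subgroup.closure_induction with
    | mem x h =>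
      refine Subgroup.subset_closure ?_
      rcases h with h | ⟨p, h0, h1⟩
      · exact Or.inl h
      · refine Or.inr ⟨1, 1, 0, p, one_ne_zero, one_ne_zero, ?_, ?_⟩
        · rw [map_one, one_mul]
          exact h0
        · rw [map_one, one_mul, map_zero, add_zero]
          exact h1
    | one => exact one_mem _
    | mul x y hx hy h1 h2 => exact mul_mem h1 h2
    | inv x hx h1 => exact inv_mem h1
  exact key g hg

theorem deg (K : Type) [Field K] :
    Deg (AT K) (ET K) (fun g => nn g.1) (fun g => mm g.1) where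
  nA g a ha := nn_mul g.1 ha
  mE g e he := mm_mul g.1 he
  le g := le_max_right _ _
  pos g := mm_pos g.1
  base g hg := nn_le_one hg
  base' := by
    refine max_le ?_ ?_
    · exact (totalDegree_X (R := K) (0 : Fin 2)).le
    · exact (totalDegree_X (R := K) (1 : Fin 2)).le
  uE g hg a ha h := uE_aut hg ha h
  uA g hg e he h := uA_aut hg he h
  gen := gen_tame

end Pool.Agent.H34.PT
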