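import Pool.Graph.R_seed8.Helper270.HNN

/-!
# The tree of two subgroups with degree functions

A group `G` generated by two subgroups `A` and `E` acts on the graph with vertices the cosets of `A` and
`E`; a coset of `A` and a coset of `E` are adjacent if they meet. If there are degree functions on `G`
such that every vertex has at most one neighbour of smaller degree, the graph is a tree.
-/

set_option autoImplicit false

namespace Pool.Agent.H34.PT

open Pool.Agent.Helper270.Tree Pool.Agent.Helper270.HNN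

variable {G : Type} [Group G] (A E : Subgroup G)

/-- the vertices: the cosets of `A` and of `E` -/
abbrev Vt : Type := (G ⧸ A) ⊕ (G ⧸ E)

/-- the graph of the cosets -/
def cg : SimpleGraph (Vt A E) where
  Adj u v := ∃ g : G, (u = Sum.inl (g : G ⧸ A) ∧ v = Sum.inr (g : G ⧸ E)) ∨
    (u = Sum.inr (g : G ⧸ E) ∧ v = Sum.inl (g : G ⧸ A))
  symm := ⟨by
    rintro u v ⟨g, h | h⟩
    · exact ⟨g, Or.inr ⟨h.2, h.1⟩⟩
    · exact ⟨g, Or.inl ⟨h.2, h.1⟩⟩⟩
  loopless := ⟨by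
    rintro u ⟨g, ⟨h, h'⟩ | ⟨h, h'⟩⟩
    · rw [h] at h'
      exact absurd h' (by simp)
    · rw [h] at h'
      exact absurd h' (by simp)⟩

/-- degree functions -/
structure Deg (n m : G → ℕ) : Prop where
  nA : ∀ g, ∀ a ∈ A, n (g * a) = n g
  mE : ∀ g, ∀ e ∈ E, m (g * e) = m g
  le : ∀ g, m g ≤ n g
  pos : ∀ g, 1 ≤ m g
  base : ∀ g, n g ≤ 1 → g ∈ A
  base' : n 1 ≤ 1
  uE : ∀ g, m g < n g → ∀ a ∈ A, m (g * a) < n g → a ∈ E
  uA : ∀ g, n g = m g → ∀ e ∈ E, n (g * e) = m g → e ∈ A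
  gen : ∀ g, g ∈ Subgroup.closure ((A : Set G) ∪ E)

variable {A E} {n m : G → ℕ}

/-- vertices with a path to the root along which the degrees decrease -/
inductive Good (A E : Subgroup G) (n m : G → ℕ) : Vt A E → Prop
  | root : Good A E n m (Sum.inl ((1 : G) : G ⧸ A))
  | stepA (g : G) : m g < n g → Good A E n m (Sum.inr (g : G ⧸ E)) →
      Good A E n m (Sum.inl (g : G ⧸ A))
  | stepE (g : G) : n g = m g → Good A E n m (Sum.inl (g : G ⧸ A)) →
      Good A E n m (Sum.inr (g : G ⧸ E))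

theorem Deg.nA' (h : Deg A E n m) {g g' : G} (hg : (g : G ⧸ A) = g') : n g = n g' := by
  rw [QuotientGroup.eq] at hg
  rw [← h.nA g _ hg, mul_inv_cancel_left]

theorem Deg.mE' (h : Deg A E n m) {g g' : G} (hg : (g : G ⧸ E) = g') : m g = m g' := by
  rw [QuotientGroup.eq] at hg
  rw [← h.mE g _ hg, mul_inv_cancel_left]

/-- a coset of `A` has at most one lower neighbour -/
theorem Deg.uniqE (h : Deg A E n m) {g g' : G} (hg : (g : G ⧸ A) = g') (h1 : m g < n g)
    (h2 : m g' < n g') : (g : G ⧸ E) = g' := by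
  have hn := h.nA' hg
  rw [QuotientGroup.eq] at hg ⊢
  exact h.uE g h1 _ hg (by rw [mul_inv_cancel_left, hn]; exact h2)

/-- a coset of `E` has at most one lower neighbour -/
theorem Deg.uniqA (h : Deg A E n m) {g g' : G} (hg : (g : G ⧸ E) = g') (h1 : n g = m g)
    (h2 : n g' = m g') : (g : G ⧸ A) = g' := by
  have hm := h.mE' hg
  rw [QuotientGroup.eq] at hg ⊢
  exact h.uA g h1 _ hg (by rw [mul_inv_cancel_left, hm]; exact h2)

theorem Deg.good_inl (h : Deg A E n m) {g : G} (hg : Good A E n m (Sum.inl (g : G ⧸ A)))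
    (hlt : m g < n g) : Good A E n m (Sum.inr (g : G ⧸ E)) := by
  obtain ⟨v, hv⟩ : ∃ v : Vt A E, v = Sum.inl (g : G ⧸ A) := ⟨_, rfl⟩
  rw [← hv] at hg
  cases hg with
  | root =>
    have h1 := h.nA' (Sum.inl.inj hv)
    have h2 := h.base'
    have h3 := h.pos g
    omega
  | stepA g' h1 h2 =>
    rwa [← h.uniqE (Sum.inl.inj hv) h1 hlt]
  | stepE g' h1 h2 => exact absurd hv (by simp)

theorem Deg.good_inr (h : Deg A E n m) {g : G} (hg : Good A E n m (Sum.inr (g : G ⧸ E)))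
    (heq : n g = m g) : Good A E n m (Sum.inl (g : G ⧸ A)) := by
  obtain ⟨v, hv⟩ : ∃ v : Vt A E, v = Sum.inr (g : G ⧸ E) := ⟨_, rfl⟩
  rw [← hv] at hg
  cases hg with
  | root => exact absurd hv (by simp)
  | stepA g' h1 h2 => exact absurd hv (by simp)
  | stepE g' h1 h2 =>
    rwa [← h.uniqA (Sum.inr.inj hv) h1 heq]

theorem Deg.good_step (h : Deg A E n m) {g s : G} (hs : s ∈ (A : Set G) ∪ E)
    (hg : Good A E n m (Sum.inl (g : G ⧸ A)) ∧ Good A E n m (Sum.inr (g : G ⧸ E))) :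
    Good A E n m (Sum.inl ((g * s : G) : G ⧸ A)) ∧
      Good A E n m (Sum.inr ((g * s : G) : G ⧸ E)) := by
  rcases hs with hs | hs
  · have h1 : ((g * s : G) : G ⧸ A) = g := by
      rw [eq_comm, QuotientGroup.eq, inv_mul_cancel_left]
      exact hs
    have h2 : Good A E n m (Sum.inl ((g * s : G) : G ⧸ A)) := by rw [h1]; exact hg.1
    refine ⟨h2, ?_⟩
    rcases (h.le (g * s)).lt_or_eq with h3 | h3
    · exact h.good_inl h2 h3
    · exact Good.stepE _ h3.symm h2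
  · have h1 : ((g * s : G) : G ⧸ E) = g := by
      rw [eq_comm, QuotientGroup.eq, inv_mul_cancel_left]
      exact hs
    have h2 : Good A E n m (Sum.inr ((g * s : G) : G ⧸ E)) := by rw [h1]; exact hg.2
    refine ⟨?_, h2⟩
    rcases (h.le (g * s)).lt_or_eq with h3 | h3
    · exact Good.stepA _ h3 h2
    · exact h.good_inr h2 h3.symm

theorem Deg.good (h : Deg A E n m) (g : G) :
    Good A E n m (Sum.inl (g : G ⧸ A)) ∧ Good A E n m (Sum.inr (g : G ⧸ E)) := by
  have key : ∀ s ∈ Subgroup.closure ((A : Set G) ∪ E), ∀ g : G,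
      Good A E n m (Sum.inl (g : G ⧸ A)) ∧ Good A E n m (Sum.inr (g : G ⧸ E)) →
      Good A E n m (Sum.inl ((g * s : G) : G ⧸ A)) ∧
        Good A E n m (Sum.inr ((g * s : G) : G ⧸ E)) := by
    intro s hs
    induction hs using Subgroup.closure_induction'' with
    | mem s hs => exact fun g hg => h.good_step hs hg
    | inv_mem s hs =>
      refine fun g hg => h.good_step ?_ hg
      rcases hs with hs | hs
      · exact Or.inl (A.inv_mem hs)
      · exact Or.inr (E.inv_mem hs)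
    | one => intro g hg; rwa [mul_one]
    | mul s t _ _ h1 h2 =>
      intro g hg
      rw [← mul_assoc]
      exact h2 _ (h1 _ hg)
  have h1 := key g (h.gen g) 1 ⟨Good.root, Good.stepE 1 (le_antisymm
    (h.base'.trans (h.pos 1)) (h.le 1)) Good.root⟩
  rwa [one_mul] at h1

theorem Deg.exists_par (h : Deg A E n m) (v : Vt A E) :
    (v = Sum.inl ((1 : G) : G ⧸ A)) ∨ (∃ g : G, m g < n g ∧ v = Sum.inl (g : G ⧸ A)) ∨
      (∃ g : G, n g = m g ∧ v = Sum.inr (g : G ⧸ E)) := by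
  have h1 : Good A E n m v := by
    rcases v with v | v
    · obtain ⟨g, rfl⟩ := QuotientGroup.mk_surjective v
      exact (h.good g).1
    · obtain ⟨g, rfl⟩ := QuotientGroup.mk_surjective v
      exact (h.good g).2
  cases h1 with
  | root => exact Or.inl rfl
  | stepA g h1 h2 => exact Or.inr (Or.inl ⟨g, h1, rfl⟩)
  | stepE g h1 h2 => exact Or.inr (Or.inr ⟨g, h1, rfl⟩)

open Classical in
/-- the parent of a vertex -/
noncomputable def par (A E : Subgroup G) (n m : G → ℕ) : Vt A E → Vt A E := fun v =>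
  if h : ∃ g : G, m g < n g ∧ v = Sum.inl (g : G ⧸ A) then
    Sum.inr ((Classical.choose h : G) : G ⧸ E) else
  if h : ∃ g : G, n g = m g ∧ v = Sum.inr (g : G ⧸ E) then
    Sum.inl ((Classical.choose h : G) : G ⧸ A) else v

theorem Deg.par_inl (h : Deg A E n m) {g : G} (hg : m g < n g) :
    par A E n m (Sum.inl (g : G ⧸ A)) = Sum.inr (g : G ⧸ E) := by
  have h1 : ∃ g' : G, m g' < n g' ∧ (Sum.inl (g : G ⧸ A) : Vt A E) = Sum.inl (g' : G ⧸ A) :=
    ⟨g, hg, rfl⟩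
  unfold par
  rw [dif_pos h1]
  have h2 := Classical.choose_spec h1
  rw [h.uniqE (Sum.inl.inj h2.2) hg h2.1]

theorem Deg.par_inr (h : Deg A E n m) {g : G} (hg : n g = m g) :
    par A E n m (Sum.inr (g : G ⧸ E)) = Sum.inl (g : G ⧸ A) := by
  have h0 : ¬ ∃ g' : G, m g' < n g' ∧ (Sum.inr (g : G ⧸ E) : Vt A E) = Sum.inl (g' : G ⧸ A) := by
    rintro ⟨g', _, h1⟩
    exact absurd h1 (by simp)
  have h1 : ∃ g' : G, n g' = m g' ∧ (Sum.inr (g : G ⧸ E) : Vt A E) = Sum.inr (g' : G ⧸ E) :=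
    ⟨g, hg, rfl⟩
  unfold par
  rw [dif_neg h0, dif_pos h1]
  have h2 := Classical.choose_spec h1
  rw [h.uniqA (Sum.inr.inj h2.2) hg h2.1]

/-- the level of a vertex -/
noncomputable def lev (A E : Subgroup G) (n m : G → ℕ) : Vt A E → ℕ :=
  Sum.elim (fun x => 2 * n x.out) fun x => 2 * m x.out + 1

theorem Deg.lev_inl (h : Deg A E n m) (g : G) : lev A E n m (Sum.inl (g : G ⧸ A)) = 2 * n g := by
  show 2 * n (Quotient.out (g : G ⧸ A)) = _
  rw [h.nA' (QuotientGroup.out_eq' (g : G ⧸ A))]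

theorem Deg.lev_inr (h : Deg A E n m) (g : G) :
    lev A E n m (Sum.inr (g : G ⧸ E)) = 2 * m g + 1 := by
  show 2 * m (Quotient.out (g : G ⧸ E)) + 1 = _
  rw [h.mE' (QuotientGroup.out_eq' (g : G ⧸ E))]

theorem Deg.isTree (h : Deg A E n m) : (cg A E).IsTree := by
  have hroot : ∀ g : G, m g < n g → (Sum.inl (g : G ⧸ A) : Vt A E) ≠ Sum.inl ((1 : G) : G ⧸ A) := by
    intro g hg h1
    have h2 := h.nA' (Sum.inl.inj h1)
    have h3 := h.base'
    have h4 := h.pos g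
    omega
  refine isTree_of_parent (par := par A E n m) (o := Sum.inl ((1 : G) : G ⧸ A))
    (lev A E n m) ?_ ?_ ?_
  · intro v hv
    rcases h.exists_par v with h1 | ⟨g, hg, rfl⟩ | ⟨g, hg, rfl⟩
    · exact absurd h1 hv
    · rw [h.par_inl hg]
      exact ⟨g, Or.inl ⟨rfl, rfl⟩⟩
    · rw [h.par_inr hg]
      exact ⟨g, Or.inr ⟨rfl, rfl⟩⟩
  · intro v hv
    rcases h.exists_par v with h1 | ⟨g, hg, rfl⟩ | ⟨g, hg, rfl⟩
    · exact absurd h1 hv
    · rw [h.par_inl hg, h.lev_inl, h.lev_inr]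
      omega
    · rw [h.par_inr hg, h.lev_inl, h.lev_inr]
      omega
  · have key : ∀ g : G, ((Sum.inl (g : G ⧸ A) : Vt A E) ≠ Sum.inl ((1 : G) : G ⧸ A) ∧
        par A E n m (Sum.inl (g : G ⧸ A)) = Sum.inr (g : G ⧸ E)) ∨
        ((Sum.inr (g : G ⧸ E) : Vt A E) ≠ Sum.inl ((1 : G) : G ⧸ A) ∧
        par A E n m (Sum.inr (g : G ⧸ E)) = Sum.inl (g : G ⧸ A)) := by
      intro g
      rcases (h.le g).lt_or_eq with h1 | h1
      · exact Or.inl ⟨hroot g h1, h.par_inl h1⟩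
      · exact Or.inr ⟨by simp, h.par_inr h1.symm⟩
    rintro u v ⟨g, ⟨rfl, rfl⟩ | ⟨rfl, rfl⟩⟩
    · exact key g
    · exact (key g).symm

theorem smul_inl (g h : G) : g • (Sum.inl (h : G ⧸ A) : Vt A E) = Sum.inl ((g * h : G) : G ⧸ A) :=
  rfl

theorem smul_inr (g h : G) : g • (Sum.inr (h : G ⧸ E) : Vt A E) = Sum.inr ((g * h : G) : G ⧸ E) :=
  rfl

theorem Deg.treeAct (h : Deg A E n m) : TreeAct G (cg A E) where
  isTree := h.isTree
  adj := by
    rintro g _ _ ⟨k, ⟨rfl, rfl⟩ | ⟨rfl, rfl⟩⟩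
    · exact ⟨g * k, Or.inl ⟨rfl, rfl⟩⟩
    · exact ⟨g * k, Or.inr ⟨rfl, rfl⟩⟩
  noInv := by
    rintro g _ _ ⟨k, ⟨rfl, rfl⟩ | ⟨rfl, rfl⟩⟩ ⟨h1, h2⟩
    · exact absurd h1 (by rw [smul_inl]; simp)
    · exact absurd h1 (by rw [smul_inr]; simp)

end Pool.Agent.H34.PT
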